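import Pool.Agent.Q99.HT.Stm3
import Pool.Agent.Q162.KN.PX

/-! Job HT-GPX: a sum as an integral (general form). -/

set_option autoImplicit false

namespace Pool.Agent.Q237.HT

open Complex MeasureTheory
open Esc405 (rectInt)
open Q162.KN
open Pool.Agent.Q99.HT

/-- sums over an interval of integers -/
lemma sum_int (a b : ℤ) (hab : a ≤ b) (F : ℤ → ℂ) :
    ∑ y ∈ Finset.Icc a b, F y = ∑ k ∈ Finset.range (b + 1 - a).toNat, F (a + k) := by
  apply Finset.sum_nbij' (fun y => (y - a).toNat) (fun k => a + k)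
  · intro y hy
    rw [Finset.mem_Icc] at hy
    rw [Finset.mem_range]
    omega
  · intro k hk
    rw [Finset.mem_range] at hk
    rw [Finset.mem_Icc]
    omega
  · intro y hy
    rw [Finset.mem_Icc] at hy
    omega
  · intro k _
    omega
  · intro y hy
    rw [Finset.mem_Icc] at hy
    congr 1
    omega

theorem task_GPX : S_GPX := by
  refine ⟨6, by norm_num, ?_⟩
  intro N hN a b hab f U τ η A B hU hf hτN hτ hη hR hA hB
  have hN0 : (0 : ℝ) < N := by exact_mod_cast hN
  have hNC : (N : ℂ) ≠ 0 := by exact_mod_cast hN0.ne'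
  set h : ℝ := 1 / N with hh
  have hh0 : 0 < h := by positivity
  have hNh : (N : ℝ) * h = 1 := by rw [hh]; field_simp
  set s : ℝ := a / N with hs
  obtain ⟨m, hm⟩ : ∃ m : ℕ, m = (b + 1 - a).toNat := ⟨_, rfl⟩
  have hmz : (m : ℤ) = b + 1 - a := by omega
  have hmr : (m : ℝ) = (b : ℝ) - a + 1 := by
    have : ((m : ℤ) : ℝ) = ((b + 1 - a : ℤ) : ℝ) := by rw [hmz]
    push_cast at this
    linarith
  set x₀ : ℝ := lo N a with hx₀
  set x₁ : ℝ := hi N b with hx₁
  have e0 : x₀ = s - h / 2 := by
    rw [hx₀, hs, hh]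
    unfold lo
    field_simp
  have e1 : x₁ = s + m * h - h / 2 := by
    rw [hx₁, hs, hh, hmr]
    unfold hi
    field_simp
    ring
  have hlen0 : x₁ - x₀ = m * h := by rw [e0, e1]; ring
  have hx01 : x₀ ≤ x₁ := by
    have : (0 : ℝ) ≤ m * h := by positivity
    linarith
  have hτ0 : 0 < τ := by
    by_contra hcon
    push Not at hcon
    nlinarith
  have hin : ∀ v : ℂ, x₀ ≤ v.re → v.re ≤ x₁ → -τ ≤ v.im → v.im ≤ τ → DifferentiableAt ℂ f v := by
    intro v a1 a2 a3 a4
    have h1 := hR v.re ⟨a1, a2⟩ v.im ⟨a3, a4⟩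
    rw [Complex.re_add_im] at h1
    exact hf.differentiableAt (hU.mem_nhds h1)
  -- the sum
  have hsum := sum_rect (s := s) (h := h) (Y := τ) hh0 hτ0 m (F := f) (by
    rw [← e0, ← e1]
    exact hin)
  rw [← e0, ← e1] at hsum
  have hS : ∑ k ∈ Finset.range m, f (s + k * h) =
      ∑ y ∈ Finset.Icc a b, f (y / N) := by
    rw [sum_int a b hab (fun y => f (y / N)), ← hm]
    refine Finset.sum_congr rfl fun k _ => ?_
    congr 1
    rw [hs, hh]
    push_cast
    field_simp
  rw [hS] at hsum
  set S := ∑ y ∈ Finset.Icc a b, f (y / N) with hSd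
  set E : ℝ := Real.exp (-(2 * Real.pi * τ * N)) with hE
  have hE0 : 0 < E := Real.exp_pos _
  have hlen : |x₁ - x₀| = m * h := by
    rw [abs_of_nonneg (by linarith), hlen0]
  have hA0 : 0 ≤ A := (norm_nonneg _).trans (hA x₀ ⟨le_rfl, hx01⟩).1
  have hB0 : 0 ≤ B := (norm_nonneg _).trans (hB 0 ⟨by linarith, by linarith⟩).1
  have hpi := Real.pi_pos
  have hu : 1 ≤ Real.pi * τ * N := by
    have h1 : Real.pi * 1 ≤ Real.pi * (τ * N) := mul_le_mul_of_nonneg_left hτN hpi.le
    have := Real.pi_gt_three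
    nlinarith
  have hpin : (Real.pi : ℂ) / (h : ℂ) = Real.pi * N := by
    rw [hh]
    push_cast
    field_simp
  have hpin' : Real.pi / h = Real.pi * N := by
    rw [hh]
    field_simp
  have hmul : 4 * Real.pi * N * E * A * |x₁ - x₀| = 4 * Real.pi * E * A * m := by
    rw [hlen]
    linear_combination (4 * Real.pi * E * A * m) * hNh
  -- horizontal sides
  have hlow : ‖(∫ x in x₀..x₁, f (x + (-τ : ℝ) * I) * ck s h (x + (-τ : ℝ) * I)) -
      Real.pi * N * I * ∫ x in x₀..x₁, f (x + (-τ : ℝ) * I)‖ ≤ 4 * Real.pi * E * A * m := by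
    rw [← intervalIntegral.integral_const_mul, ← intervalIntegral.integral_sub
      (hor_int hh0 (neg_ne_zero.2 hτ0.ne') hx01 fun x hx1 hx2 => hin _ (by simpa using hx1)
        (by simpa using hx2) (by simp) (by simp; linarith))
      (by
        refine IntervalIntegrable.const_mul ?_ _
        apply ContinuousOn.intervalIntegrable
        intro x hx'
        rw [Set.uIcc_of_le hx01] at hx'
        apply ContinuousAt.continuousWithinAt
        exact ContinuousAt.comp (f := fun x : ℝ => (x : ℂ) + (-τ : ℝ) * I) (g := f)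
          (hin _ (by simpa using hx'.1) (by simpa using hx'.2) (by simp)
            (by simp; linarith)).continuousAt (by fun_prop))]
    have := intervalIntegral.norm_integral_le_of_norm_le_const (a := x₀) (b := x₁)
      (C := 4 * Real.pi * N * E * A)
      (f := fun x : ℝ => f (x + (-τ : ℝ) * I) * ck s h (x + (-τ : ℝ) * I) -
        Real.pi * N * I * f (x + (-τ : ℝ) * I)) (by
      intro x hx
      rw [Set.uIoc_of_le hx01] at hx
      have h1 : ‖f (x + (-τ : ℝ) * I)‖ ≤ A := by
        have := (hA x ⟨hx.1.le, hx.2⟩).2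
        have e : (x : ℂ) + (-τ : ℝ) * I = x - τ * I := by push_cast; ring
        rw [e]
        exact this
      have h2 : (ang s h ((x : ℂ) + (-τ : ℝ) * I)).im = -(Real.pi * τ * N) := by
        rw [ang_im]
        simp only [add_im, ofReal_im, mul_im, ofReal_re, I_im, mul_one, I_re, mul_zero, add_zero,
          zero_add]
        rw [hh]
        field_simp
      have h3 := (cot_far (w := ang s h ((x : ℂ) + (-τ : ℝ) * I)) hu).1 h2
      have e : f (x + (-τ : ℝ) * I) * ck s h (x + (-τ : ℝ) * I) -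
          Real.pi * N * I * f (x + (-τ : ℝ) * I) = f (x + (-τ : ℝ) * I) * (Real.pi * N *
          (cos (ang s h ((x : ℂ) + (-τ : ℝ) * I)) / sin (ang s h ((x : ℂ) + (-τ : ℝ) * I)) - I)) := by
        unfold ck
        rw [hpin]
        ring
      rw [e, norm_mul, norm_mul, norm_mul, Complex.norm_real, Complex.norm_natCast,
        Real.norm_eq_abs, abs_of_pos hpi]
      have e5 : -(2 * (Real.pi * τ * N)) = -(2 * Real.pi * τ * N) := by ring
      rw [e5, ← hE] at h3
      calc ‖f (x + (-τ : ℝ) * I)‖ * (Real.pi * N * ‖cos (ang s h ((x : ℂ) + (-τ : ℝ) * I)) /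
            sin (ang s h ((x : ℂ) + (-τ : ℝ) * I)) - I‖) ≤ A * (Real.pi * N * (4 * E)) := by
            gcongr
        _ = 4 * Real.pi * N * E * A := by ring)
    rw [hmul] at this
    exact this
  have hup : ‖(∫ x in x₀..x₁, f (x + τ * I) * ck s h (x + τ * I)) +
      Real.pi * N * I * ∫ x in x₀..x₁, f (x + τ * I)‖ ≤ 4 * Real.pi * E * A * m := by
    rw [← intervalIntegral.integral_const_mul, ← intervalIntegral.integral_add
      (hor_int hh0 hτ0.ne' hx01 fun x hx1 hx2 => hin _ (by simpa using hx1)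
        (by simpa using hx2) (by simp; linarith) (by simp))
      (by
        refine IntervalIntegrable.const_mul ?_ _
        apply ContinuousOn.intervalIntegrable
        intro x hx'
        rw [Set.uIcc_of_le hx01] at hx'
        apply ContinuousAt.continuousWithinAt
        exact ContinuousAt.comp (f := fun x : ℝ => (x : ℂ) + τ * I) (g := f)
          (hin _ (by simpa using hx'.1) (by simpa using hx'.2) (by simp; linarith)
            (by simp)).continuousAt (by fun_prop))]
    have := intervalIntegral.norm_integral_le_of_norm_le_const (a := x₀) (b := x₁)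
      (C := 4 * Real.pi * N * E * A)
      (f := fun x : ℝ => f (x + τ * I) * ck s h (x + τ * I) +
        Real.pi * N * I * f (x + τ * I)) (by
      intro x hx
      rw [Set.uIoc_of_le hx01] at hx
      have h1 : ‖f (x + τ * I)‖ ≤ A := (hA x ⟨hx.1.le, hx.2⟩).1
      have h2 : (ang s h ((x : ℂ) + τ * I)).im = Real.pi * τ * N := by
        rw [ang_im]
        simp only [add_im, ofReal_im, mul_im, ofReal_re, I_im, mul_one, I_re, mul_zero, add_zero,
          zero_add]
        rw [hh]
        field_simp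
      have h3 := (cot_far (w := ang s h ((x : ℂ) + τ * I)) hu).2 h2
      have e : f (x + τ * I) * ck s h (x + τ * I) +
          Real.pi * N * I * f (x + τ * I) = f (x + τ * I) * (Real.pi * N *
          (cos (ang s h ((x : ℂ) + τ * I)) / sin (ang s h ((x : ℂ) + τ * I)) + I)) := by
        unfold ck
        rw [hpin]
        ring
      rw [e, norm_mul, norm_mul, norm_mul, Complex.norm_real, Complex.norm_natCast,
        Real.norm_eq_abs, abs_of_pos hpi]
      have e5 : -(2 * (Real.pi * τ * N)) = -(2 * Real.pi * τ * N) := by ring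
      rw [e5, ← hE] at h3
      calc ‖f (x + τ * I)‖ * (Real.pi * N * ‖cos (ang s h ((x : ℂ) + τ * I)) /
            sin (ang s h ((x : ℂ) + τ * I)) + I‖) ≤ A * (Real.pi * N * (4 * E)) := by
            gcongr
        _ = 4 * Real.pi * N * E * A := by ring)
    rw [hmul] at this
    exact this
  -- vertical sides
  have hver : ∀ n : ℤ, ∀ X : ℝ, X = s + n * h - h / 2 →
      (∀ t ∈ Set.Icc (-τ) τ, ‖f (X + t * I)‖ ≤ B) →
      ‖∫ y in (-τ)..τ, f (X + y * I) * ck s h (X + y * I)‖ ≤ 2 * τ * B * (Real.pi * N) := by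
    intro n X hX hf2
    have := intervalIntegral.norm_integral_le_of_norm_le_const (a := -τ) (b := τ)
      (C := B * (Real.pi * N)) (f := fun y : ℝ => f (X + y * I) * ck s h (X + y * I)) (by
      intro t ht
      rw [Set.uIoc_of_le (by linarith)] at ht
      rw [norm_mul]
      have h1 := hf2 t ⟨ht.1.le, ht.2⟩
      have h2 := (mid_line (s := s) hh0 n t).2
      rw [← hX, hpin'] at h2
      exact mul_le_mul h1 h2 (norm_nonneg _) hB0)
    refine this.trans (le_of_eq ?_)
    rw [abs_of_pos (by linarith)]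
    ring
  have hleft := hver 0 x₀ (by rw [e0]; push_cast; ring) fun t ht => (hB t ht).1
  have hright := hver (m : ℤ) x₁ (by rw [e1]; push_cast; ring) fun t ht => (hB t ht).2
  -- moves
  have hη' := abs_le.1 hη
  have hmin : ∀ y : ℝ, -τ ≤ y → y ≤ τ → ‖(∫ x in x₀..x₁, f (x + y * I)) -
      ∫ x in x₀..x₁, f (x + η * I)‖ ≤ 2 * B * (2 * τ) := by
    intro y hy1 hy2
    refine shift_hor hx01 (abs_le.2 ⟨by linarith, by linarith⟩) ?_ ?_
    · intro v a1 a2 a3 a4
      refine hin v a1 a2 ?_ ?_
      · exact (le_min hy1 hη'.1).trans a3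
      · exact a4.trans (max_le hy2 hη'.2)
    · intro t a3 a4
      exact hB t ⟨(le_min hy1 hη'.1).trans a3, a4.trans (max_le hy2 hη'.2)⟩
  have hm1 := hmin (-τ) le_rfl (by linarith)
  have hm2 := hmin τ (by linarith) le_rfl
  set B0 := ∫ x in x₀..x₁, f (x + (-τ : ℝ) * I) * ck s h (x + (-τ : ℝ) * I) with hB0d
  set T0 := ∫ x in x₀..x₁, f (x + τ * I) * ck s h (x + τ * I) with hT0d
  set B1 := ∫ x in x₀..x₁, f (x + (-τ : ℝ) * I) with hB1d
  set T1 := ∫ x in x₀..x₁, f (x + τ * I) with hT1d
  set Q := ∫ x in x₀..x₁, f (x + η * I) with hQd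
  set L0 := ∫ y in (-τ)..τ, f (x₀ + y * I) * ck s h (x₀ + y * I) with hL0d
  set R0 := ∫ y in (-τ)..τ, f (x₁ + y * I) * ck s h (x₁ + y * I) with hR0d
  have hsum' : B0 - T0 + I * R0 - I * L0 = 2 * Real.pi * I * S := hsum
  have hfin : 2 * Real.pi * I * (S - N * Q) = (B0 - Real.pi * N * I * B1) -
      (T0 + Real.pi * N * I * T1) + I * R0 - I * L0 + Real.pi * N * I * (B1 - Q) +
      Real.pi * N * I * (T1 - Q) := by
    linear_combination -hsum'
  have hn := congrArg norm hfin
  have hn1 : ‖2 * (Real.pi : ℂ) * I * (S - N * Q)‖ = 2 * Real.pi * ‖S - N * Q‖ := by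
    rw [norm_mul, norm_mul, norm_mul, Complex.norm_I, Complex.norm_real, Real.norm_eq_abs,
      abs_of_pos hpi]
    simp
  have hpn : ∀ z : ℂ, ‖(Real.pi : ℂ) * N * I * z‖ = Real.pi * N * ‖z‖ := by
    intro z
    rw [norm_mul, norm_mul, norm_mul, Complex.norm_I, Complex.norm_real, Real.norm_eq_abs,
      abs_of_pos hpi, Complex.norm_natCast]
    ring
  have hIn : ∀ z : ℂ, ‖I * z‖ = ‖z‖ := by
    intro z
    rw [norm_mul, Complex.norm_I, one_mul]
  rw [hn1] at hn
  have hbd : 2 * Real.pi * ‖S - N * Q‖ ≤ 4 * Real.pi * E * A * m + 4 * Real.pi * E * A * m +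
      2 * τ * B * (Real.pi * N) + 2 * τ * B * (Real.pi * N) +
      Real.pi * N * (2 * B * (2 * τ)) + Real.pi * N * (2 * B * (2 * τ)) := by
    rw [hn]
    refine (norm_add_le _ _).trans ?_
    refine add_le_add ((norm_add_le _ _).trans ?_) ?_
    · refine add_le_add ((norm_sub_le _ _).trans ?_) ?_
      · refine add_le_add ((norm_add_le _ _).trans ?_) ?_
        · refine add_le_add ((norm_sub_le _ _).trans (add_le_add hlow hup)) ?_
          rw [hIn]
          exact hright
        · rw [hIn]
          exact hleft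
      · rw [hpn]
        exact mul_le_mul_of_nonneg_left hm1 (by positivity)
    · rw [hpn]
      exact mul_le_mul_of_nonneg_left hm2 (by positivity)
  have hm0 : (0 : ℝ) ≤ m := Nat.cast_nonneg m
  have h6 : 2 * Real.pi * ‖S - N * Q‖ ≤ 2 * Real.pi * (6 * (N + ((b : ℝ) - a + 1)) * (E * A + B)) := by
    refine hbd.trans ?_
    rw [← hmr]
    have h8 : 0 ≤ Real.pi * N * B * (1 - τ) := by
      have : 0 ≤ 1 - τ := by linarith
      positivity
    have h9 : 0 ≤ Real.pi * E * A * m := by positivity
    have h10 : 0 ≤ Real.pi * E * A * N := by positivity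
    have h11 : 0 ≤ Real.pi * B * m := by positivity
    nlinarith
  exact le_of_mul_le_mul_left h6 (by positivity)

end Pool.Agent.Q237.HT
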