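import Pool.Agent.Q99.HT.Stm3
import Pool.Agent.Q162.KN.Rect

/-! Job HT-INT: a function which is small at the lattice points is small near the real axis. -/

set_option autoImplicit false

namespace Pool.Agent.Q237.HT

open Complex MeasureTheory
open Q162.KN (ang ang_im mid_line sin_ang_zero sin_ang_ne diff_ang norm_sin_ge sgn_pi sgn_ne sin_shift)
open Pool.Agent.Q99.HT
open Pool.Agent.Q99.KN

/-! ### division by finitely many linear factors -/

lemma fac_zeros {U : Set ℂ} (hU : IsOpen U) (Z : Finset ℂ) : (∀ c ∈ Z, c ∈ U) → ∀ f : ℂ → ℂ,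
    DifferentiableOn ℂ f U → (∀ c ∈ Z, f c = 0) →
    ∃ g : ℂ → ℂ, DifferentiableOn ℂ g U ∧ ∀ z, f z = (∏ c ∈ Z, (z - c)) * g z := by
  classical
  induction Z using Finset.induction_on with
  | empty =>
    intro _ f hf _
    exact ⟨f, hf, fun z => by simp⟩
  | insert c Z hc ih =>
    intro hZ f hf h0
    have hcU : c ∈ U := hZ c (Finset.mem_insert_self c Z)
    have h1 : DifferentiableOn ℂ (dslope f c) U := (Complex.differentiableOn_dslope (hU.mem_nhds hcU)).2 hf
    obtain ⟨g, hg, hgz⟩ := ih (fun c' hc' => hZ c' (Finset.mem_insert_of_mem hc')) (dslope f c) h1 (by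
      intro c' hc'
      have hne : c' ≠ c := by
        rintro rfl
        exact hc hc'
      rw [dslope_of_ne _ hne, slope_def_field, h0 c' (Finset.mem_insert_of_mem hc'),
        h0 c (Finset.mem_insert_self c Z)]
      simp)
    refine ⟨g, hg, fun z => ?_⟩
    have h2 := sub_smul_dslope f c z
    rw [h0 c (Finset.mem_insert_self c Z), sub_zero, smul_eq_mul, hgz] at h2
    rw [Finset.prod_insert hc, ← h2]
    ring

/-- a product with a zero has zero derivative if the other factor vanishes -/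
lemma deriv_zero_of_fac {P g f : ℂ → ℂ} {c : ℂ} (hf : ∀ z, f z = P z * g z) (hP : DifferentiableAt ℂ P c)
    (hg : DifferentiableAt ℂ g c) (h0 : P c = 0) (h1 : g c = 0) : deriv f c = 0 := by
  have h2 : f = fun z => P z * g z := funext hf
  rw [h2]
  have h3 := (hP.hasDerivAt.mul hg.hasDerivAt).deriv
  rw [h0, h1] at h3
  have h4 : deriv (fun z => P z * g z) c = deriv (P * g) c := rfl
  rw [h4, h3]
  ring

/-- the maximum principle for a quotient -/
lemma quot_bound {U : Set ℂ} (hU : IsOpen U) {θ Y : ℝ} (hθ : 0 < θ) (hY : 0 < Y)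
    (hR : ∀ v : ℂ, |v.re| ≤ θ → |v.im| ≤ Y → v ∈ U) (Z : Finset ℂ) (f S : ℂ → ℂ)
    (hf : DifferentiableOn ℂ f U) (hS : Differentiable ℂ S)
    (hZin : ∀ c ∈ Z, |c.re| < θ ∧ |c.im| < Y) (hZf : ∀ c ∈ Z, f c = 0) (hZS : ∀ c ∈ Z, S c = 0)
    (hSZ : ∀ v : ℂ, |v.re| ≤ θ → |v.im| ≤ Y → S v = 0 → v ∈ Z) (hSd : ∀ c ∈ Z, deriv S c ≠ 0) {Bq : ℝ}
    (hB : ∀ v : ℂ, |v.re| ≤ θ → |v.im| ≤ Y → (|v.re| = θ ∨ |v.im| = Y) → ‖f v / S v‖ ≤ Bq) :
    ∀ v : ℂ, |v.re| ≤ θ → |v.im| ≤ Y → ‖f v‖ ≤ Bq * ‖S v‖ := by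
  classical
  have hZU : ∀ c ∈ Z, c ∈ U := fun c hc => hR c (hZin c hc).1.le (hZin c hc).2.le
  obtain ⟨g1, hg1, hg1z⟩ := fac_zeros hU Z hZU f hf hZf
  obtain ⟨g2, hg2, hg2z⟩ := fac_zeros hU Z hZU S hS.differentiableOn hZS
  have hPne : ∀ v : ℂ, v ∉ Z → ∏ c ∈ Z, (v - c) ≠ 0 := by
    intro v hv
    rw [Finset.prod_ne_zero_iff]
    intro c hc h
    exact hv (by rw [sub_eq_zero] at h; rw [h]; exact hc)
  have hg2ne : ∀ v : ℂ, |v.re| ≤ θ → |v.im| ≤ Y → g2 v ≠ 0 := by
    intro v h1 h2 h3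
    by_cases hv : v ∈ Z
    · have h4 : DifferentiableAt ℂ g2 v := hg2.differentiableAt (hU.mem_nhds (hR v h1 h2))
      have h5 : DifferentiableAt ℂ (fun z : ℂ => ∏ c ∈ Z, (z - c)) v := by fun_prop
      have h6 : ∏ c ∈ Z, (v - c) = 0 := Finset.prod_eq_zero hv (sub_self v)
      exact hSd v hv (deriv_zero_of_fac hg2z h5 h4 h6 h3)
    · apply hv
      apply hSZ v h1 h2
      rw [hg2z, h3, mul_zero]
  have hquot : ∀ v : ℂ, v ∉ Z → g1 v / g2 v = f v / S v := by
    intro v hv
    rw [hg1z, hg2z, mul_div_mul_left _ _ (hPne v hv)]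
  -- the rectangle
  have hcl : closure (Set.Ioo (-θ) θ ×ℂ Set.Ioo (-Y) Y) = Set.Icc (-θ) θ ×ℂ Set.Icc (-Y) Y := by
    rw [Complex.closure_reProdIm, closure_Ioo (by linarith), closure_Ioo (by linarith)]
  have hfr : frontier (Set.Ioo (-θ) θ ×ℂ Set.Ioo (-Y) Y) =
      Set.Icc (-θ) θ ×ℂ {-Y, Y} ∪ {-θ, θ} ×ℂ Set.Icc (-Y) Y := by
    rw [Complex.frontier_reProdIm, closure_Ioo (by linarith), closure_Ioo (by linarith),
      frontier_Ioo (by linarith), frontier_Ioo (by linarith)]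
  have hbd : Bornology.IsBounded (Set.Ioo (-θ) θ ×ℂ Set.Ioo (-Y) Y) := by
    rw [Metric.isBounded_iff_subset_closedBall (0 : ℂ)]
    refine ⟨θ + Y, ?_⟩
    intro v hv
    rw [Complex.mem_reProdIm] at hv
    rw [mem_closedBall_zero_iff]
    have h1 := Complex.norm_le_abs_re_add_abs_im v
    have h2 : |v.re| ≤ θ := abs_le.2 ⟨hv.1.1.le, hv.1.2.le⟩
    have h3 : |v.im| ≤ Y := abs_le.2 ⟨hv.2.1.le, hv.2.2.le⟩
    linarith
  have hdiff : DiffContOnCl ℂ (fun v => g1 v / g2 v) (Set.Ioo (-θ) θ ×ℂ Set.Ioo (-Y) Y) := by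
    apply DifferentiableOn.diffContOnCl
    rw [hcl]
    intro v hv
    rw [Complex.mem_reProdIm] at hv
    have h2 : |v.re| ≤ θ := abs_le.2 hv.1
    have h3 : |v.im| ≤ Y := abs_le.2 hv.2
    have h4 := hU.mem_nhds (hR v h2 h3)
    exact ((hg1.differentiableAt h4).div (hg2.differentiableAt h4) (hg2ne v h2 h3)).differentiableWithinAt
  have hfront : ∀ v ∈ frontier (Set.Ioo (-θ) θ ×ℂ Set.Ioo (-Y) Y), ‖g1 v / g2 v‖ ≤ Bq := by
    intro v hv
    rw [hfr, Set.mem_union, Complex.mem_reProdIm, Complex.mem_reProdIm] at hv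
    have hc : |v.re| ≤ θ ∧ |v.im| ≤ Y ∧ (|v.re| = θ ∨ |v.im| = Y) := by
      rcases hv with ⟨h1, h2⟩ | ⟨h1, h2⟩
      · have h3 : |v.im| = Y := by
          rcases h2 with h2 | h2
          · rw [h2, abs_neg, abs_of_pos hY]
          · rw [Set.mem_singleton_iff] at h2
            rw [h2, abs_of_pos hY]
        exact ⟨abs_le.2 h1, h3.le, Or.inr h3⟩
      · have h3 : |v.re| = θ := by
          rcases h1 with h1 | h1
          · rw [h1, abs_neg, abs_of_pos hθ]
          · rw [Set.mem_singleton_iff] at h1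
            rw [h1, abs_of_pos hθ]
        exact ⟨h3.le, abs_le.2 h2, Or.inl h3⟩
    have hnZ : v ∉ Z := by
      intro h
      have h4 := hZin v h
      rcases hc.2.2 with h5 | h5 <;> linarith
    rw [hquot v hnZ]
    exact hB v hc.1 hc.2.1 hc.2.2
  intro v h1 h2
  by_cases hv : v ∈ Z
  · rw [hZf v hv, hZS v hv]
    simp
  · have h3 := Complex.norm_le_of_forall_mem_frontier_norm_le hbd hdiff hfront (z := v) (by
      rw [hcl, Complex.mem_reProdIm]
      exact ⟨abs_le.1 h1, abs_le.1 h2⟩)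
    rw [hquot v hv, norm_div] at h3
    have h4 : S v ≠ 0 := fun h => hv (hSZ v h1 h2 h)
    rwa [div_le_iff₀ (norm_pos_iff.2 h4)] at h3

/-! ### the sine -/

lemma norm_cos_le_exp (w : ℂ) : ‖cos w‖ ≤ Real.exp |w.im| := by
  have h2 : ‖exp (w * I)‖ ≤ Real.exp |w.im| := by
    rw [Complex.norm_exp]
    apply Real.exp_le_exp.2
    have : (w * I).re = -w.im := by simp
    rw [this]
    exact neg_le_abs _
  have h3 : ‖exp (-w * I)‖ ≤ Real.exp |w.im| := by
    rw [Complex.norm_exp]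
    apply Real.exp_le_exp.2
    have : (-w * I).re = w.im := by simp
    rw [this]
    exact le_abs_self _
  rw [Complex.cos, norm_div]
  have h4 : ‖(2 : ℂ)‖ = 2 := by simp
  rw [h4, div_le_iff₀ (by norm_num)]
  have := norm_add_le (exp (w * I)) (exp (-w * I))
  linarith

lemma norm_sin_le_exp (w : ℂ) : ‖sin w‖ ≤ Real.exp |w.im| := by
  have h2 : ‖exp (w * I)‖ ≤ Real.exp |w.im| := by
    rw [Complex.norm_exp]
    apply Real.exp_le_exp.2
    have : (w * I).re = -w.im := by simp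
    rw [this]
    exact neg_le_abs _
  have h3 : ‖exp (-w * I)‖ ≤ Real.exp |w.im| := by
    rw [Complex.norm_exp]
    apply Real.exp_le_exp.2
    have : (-w * I).re = w.im := by simp
    rw [this]
    exact le_abs_self _
  rw [Complex.sin, norm_div, norm_mul, Complex.norm_I, mul_one]
  have h4 : ‖(2 : ℂ)‖ = 2 := by simp
  rw [h4, div_le_iff₀ (by norm_num)]
  have := norm_sub_le (exp (-w * I)) (exp (w * I))
  linarith

/-- `|sin w| ≤ |w| exp |Im w|` -/
lemma norm_sin_lin (w : ℂ) : ‖sin w‖ ≤ Real.exp |w.im| * ‖w‖ := by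
  have hconv : Convex ℝ {z : ℂ | |z.im| ≤ |w.im|} := by
    have h1 : {z : ℂ | |z.im| ≤ |w.im|} = Complex.imLm ⁻¹' (Set.Icc (-|w.im|) |w.im|) := by
      ext z
      simp [abs_le]
    rw [h1]
    exact (convex_Icc _ _).linear_preimage _
  have h2 := Convex.norm_image_sub_le_of_norm_deriv_le (𝕜 := ℂ) (f := Complex.sin) (C := Real.exp |w.im|)
    (s := {z : ℂ | |z.im| ≤ |w.im|}) (x := 0) (y := w) (fun x _ => Complex.differentiable_sin x)
    (by
      intro x hx
      rw [Complex.deriv_sin]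
      exact (norm_cos_le_exp x).trans (Real.exp_le_exp.2 hx)) hconv (by simp) (by simp)
  simpa using h2

/-! ### the lattice -/

lemma hasDeriv_S (s h : ℝ) (v : ℂ) :
    HasDerivAt (fun v => sin (ang s h v)) (cos (ang s h v) * (Real.pi / h)) v := by
  have h1 : HasDerivAt (ang s h) (Real.pi / h) v := by
    have := (((hasDerivAt_id v).sub_const (s : ℂ)).const_mul (Real.pi : ℂ)).div_const (h : ℂ)
    rw [mul_one] at this
    exact this
  exact h1.csin

lemma ang_lat {s h : ℝ} (hh : 0 < h) (k : ℕ) : ang s h (s + k * h) = ((k : ℤ) : ℂ) * Real.pi := by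
  have hh' : (h : ℂ) ≠ 0 := by exact_mod_cast hh.ne'
  unfold ang
  push_cast
  field_simp
  ring

lemma S_lat {s h : ℝ} (hh : 0 < h) (k : ℕ) : sin (ang s h (s + k * h)) = 0 := by
  rw [ang_lat hh, Complex.sin_int_mul_pi]

lemma dS_lat {s h : ℝ} (hh : 0 < h) (k : ℕ) :
    ‖deriv (fun v => sin (ang s h v)) (s + k * h)‖ = Real.pi / h := by
  rw [(hasDeriv_S s h _).deriv, ang_lat hh, norm_mul, sgn_pi, one_mul, norm_div, Complex.norm_real,
    Complex.norm_real, Real.norm_of_nonneg Real.pi_pos.le, Real.norm_of_nonneg hh.le]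

lemma S_near {s h : ℝ} (hh : 0 < h) (k : ℕ) (v : ℂ) : ‖sin (ang s h v)‖ ≤
    Real.exp (Real.pi * |v.im| / h) * (Real.pi / h * ‖v - (s + k * h)‖) := by
  have hh' : (h : ℂ) ≠ 0 := by exact_mod_cast hh.ne'
  have h1 : ang s h v = ((Real.pi / h : ℝ) : ℂ) * (v - (s + k * h)) + ((k : ℤ) : ℂ) * Real.pi := by
    unfold ang
    push_cast
    field_simp
    ring
  have h2 := norm_sin_lin (((Real.pi / h : ℝ) : ℂ) * (v - (s + k * h)))
  have h3 : (((Real.pi / h : ℝ) : ℂ) * (v - (s + k * h))).im = Real.pi / h * v.im := by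
    rw [Complex.im_ofReal_mul]
    simp
  have h4 : |Real.pi / h * v.im| = Real.pi * |v.im| / h := by
    rw [abs_mul, abs_of_pos (by positivity)]
    ring
  rw [h3, h4, norm_mul, Complex.norm_real, Real.norm_of_nonneg (by positivity)] at h2
  rw [h1, sin_shift, norm_mul, sgn_pi, one_mul]
  exact h2

theorem task_INT : S_INT := by
  classical
  intro r κ K c1 hr hr1 hκ hK hc1
  have hpi := Real.pi_pos
  have hpi3 := Real.pi_gt_three
  obtain ⟨k0, hk0⟩ : ∃ k0 : ℝ, k0 = κ * (5 * r / 8) ^ 2 / 2 := ⟨_, rfl⟩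
  have hk0' : 0 < k0 := by rw [hk0]; positivity
  obtain ⟨Y, hY⟩ : ∃ Y : ℝ, Y = min (r / 8) (min (Real.pi / (4 * K)) (k0 / K)) := ⟨_, rfl⟩
  have hY0 : 0 < Y := by
    rw [hY]
    exact lt_min (by positivity) (lt_min (by positivity) (by positivity))
  have hY1 : Y ≤ r / 8 := by rw [hY]; exact min_le_left _ _
  have hY2 : K * Y ≤ Real.pi / 4 := by
    have h1 : Y ≤ Real.pi / (4 * K) := by rw [hY]; exact (min_le_right _ _).trans (min_le_left _ _)
    rw [le_div_iff₀ (by positivity)] at h1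
    linarith
  have hY3 : K * Y ≤ k0 := by
    have h1 : Y ≤ k0 / K := by rw [hY]; exact (min_le_right _ _).trans (min_le_right _ _)
    rw [le_div_iff₀ hK] at h1
    linarith
  have hYY : K * Y ^ 2 ≤ K * Y := by
    have : Y ≤ 1 := by linarith
    have h2 : 0 ≤ K * Y := by positivity
    nlinarith
  have hYY2 : K * Y ^ 2 ≤ Real.pi * Y / 4 := by
    have : K * Y * Y ≤ Real.pi / 4 * Y := mul_le_mul_of_nonneg_right hY2 hY0.le
    nlinarith
  obtain ⟨c', hc'⟩ : ∃ c' : ℝ, c' = min (Real.pi * Y / 4) k0 := ⟨_, rfl⟩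
  have hc'0 : 0 < c' := by rw [hc']; exact lt_min (by positivity) hk0'
  have hc'1 : c' ≤ Real.pi * Y / 4 := by rw [hc']; exact min_le_left _ _
  have hc'2 : c' ≤ k0 := by rw [hc']; exact min_le_right _ _
  obtain ⟨cc, hcc⟩ : ∃ cc : ℝ, cc = min c1 c' := ⟨_, rfl⟩
  have hcc0 : 0 < cc := by rw [hcc]; exact lt_min hc1 hc'0
  have hcc1 : cc ≤ c1 := by rw [hcc]; exact min_le_left _ _
  have hcc2 : cc ≤ c' := by rw [hcc]; exact min_le_right _ _
  obtain ⟨y0, hy0⟩ : ∃ y0 : ℝ, y0 = min Y (cc / Real.pi) := ⟨_, rfl⟩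
  have hy00 : 0 < y0 := by rw [hy0]; exact lt_min hY0 (by positivity)
  have hy01 : y0 ≤ Y := by rw [hy0]; exact min_le_left _ _
  have hy02 : Real.pi * y0 ≤ cc := by
    have h1 : y0 ≤ cc / Real.pi := by rw [hy0]; exact min_le_right _ _
    rw [le_div_iff₀ hpi] at h1
    linarith
  refine ⟨y0, cc / 2, 6, hy00, by positivity, max ⌈16 / r⌉₊ ⌈2 / Y⌉₊ + 1, ?_⟩
  intro N hN Δ M hM hΔ hmaj hlat ζ hζ1 hζ2
  have hN1 : 16 / r ≤ N := (Nat.le_ceil _).trans (by
    have h0 := le_max_left ⌈16 / r⌉₊ ⌈2 / Y⌉₊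
    have : ⌈16 / r⌉₊ ≤ N := by omega
    exact_mod_cast this)
  have hN2 : 2 / Y ≤ N := (Nat.le_ceil _).trans (by
    have h0 := le_max_right ⌈16 / r⌉₊ ⌈2 / Y⌉₊
    have : ⌈2 / Y⌉₊ ≤ N := by omega
    exact_mod_cast this)
  have hN0 : (0 : ℝ) < N := lt_of_lt_of_le (by positivity) hN1
  have hN3 : (1 : ℝ) ≤ N := by
    have : 1 ≤ N := by omega
    exact_mod_cast this
  have hNr : 16 ≤ r * N := by
    rw [div_le_iff₀ hr] at hN1
    linarith
  have hNY : 2 ≤ Y * N := by
    rw [div_le_iff₀ hY0] at hN2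
    linarith
  -- the rectangle
  obtain ⟨j, hj⟩ : ∃ j : ℕ, j = ⌈(1 - 3 * r / 4) * N / 2⌉₊ := ⟨_, rfl⟩
  have hj1 : (1 - 3 * r / 4) * N / 2 ≤ j := by rw [hj]; exact Nat.le_ceil _
  have hj2 : (j : ℝ) < (1 - 3 * r / 4) * N / 2 + 1 := by
    rw [hj]
    refine Nat.ceil_lt_add_one ?_
    have : 0 ≤ 1 - 3 * r / 4 := by linarith
    positivity
  have hjj : 2 * j < N := by
    have : ((2 * j : ℕ) : ℝ) < N := by push_cast; nlinarith
    exact_mod_cast this
  obtain ⟨θ, hθ⟩ : ∃ θ : ℝ, θ = 1 - 2 * j / N := ⟨_, rfl⟩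
  have hθN : θ * N = N - 2 * j := by rw [hθ]; field_simp
  have hθ1 : 5 * r / 8 ≤ θ := by
    by_contra hcon
    push Not at hcon
    have : θ * N < 5 * r / 8 * N := mul_lt_mul_of_pos_right hcon hN0
    nlinarith
  have hθ2 : θ ≤ 3 * r / 4 := by
    by_contra hcon
    push Not at hcon
    have : 3 * r / 4 * N < θ * N := mul_lt_mul_of_pos_right hcon hN0
    nlinarith
  have hθ0 : 0 < θ := by linarith
  obtain ⟨h, hh⟩ : ∃ h : ℝ, h = 2 / N := ⟨_, rfl⟩
  have hh0 : 0 < h := by rw [hh]; positivity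
  obtain ⟨s, hs⟩ : ∃ s : ℝ, s = (2 * j + 1 - N) / N := ⟨_, rfl⟩
  obtain ⟨m, hm⟩ : ∃ m : ℕ, m = N - 2 * j := ⟨_, rfl⟩
  have hmr : (m : ℝ) = N - 2 * j := by
    rw [hm, Nat.cast_sub hjj.le]
    push_cast
    ring
  have hmN : m ≤ N := by omega
  have e0 : -θ = s - h / 2 := by
    rw [hθ, hs, hh]
    field_simp
    ring
  have e1 : θ = s + m * h - h / 2 := by
    rw [hθ, hs, hh, hmr]
    field_simp
    ring
  have hpih : Real.pi / h = Real.pi * N / 2 := by rw [hh]; field_simp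
  obtain ⟨S, hS⟩ : ∃ S : ℂ → ℂ, S = fun v => sin (ang s h v) := ⟨_, rfl⟩
  obtain ⟨Z, hZ⟩ : ∃ Z : Finset ℂ, Z = (Finset.range m).image (fun k : ℕ => (s : ℂ) + k * h) := ⟨_, rfl⟩
  have hZmem : ∀ c ∈ Z, ∃ k : ℕ, k < m ∧ c = s + k * h := by
    intro c hc
    rw [hZ, Finset.mem_image] at hc
    obtain ⟨k, hk, rfl⟩ := hc
    exact ⟨k, Finset.mem_range.1 hk, rfl⟩
  have hZcard : (Z.card : ℝ) ≤ N := by
    have : Z.card ≤ N := by
      rw [hZ]
      exact Finset.card_image_le.trans (by rw [Finset.card_range]; exact hmN)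
    exact_mod_cast this
  have hSdiff : Differentiable ℂ S := by
    rw [hS]
    exact fun v => (hasDeriv_S s h v).differentiableAt
  have hSc : ∀ c ∈ Z, S c = 0 := by
    intro c hc
    obtain ⟨k, _, rfl⟩ := hZmem c hc
    rw [hS]
    exact S_lat hh0 k
  have hdSc : ∀ c ∈ Z, ‖deriv S c‖ = Real.pi / h := by
    intro c hc
    obtain ⟨k, _, rfl⟩ := hZmem c hc
    rw [hS]
    exact dS_lat hh0 k
  have hpih0 : 0 < Real.pi / h := by positivity
  have hdSne : ∀ c ∈ Z, deriv S c ≠ 0 := by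
    intro c hc
    exact norm_pos_iff.1 (by rw [hdSc c hc]; exact hpih0)
  have hcre : ∀ c ∈ Z, ∃ k : ℕ, k < m ∧ c.re = s + k * h ∧ c.im = 0 ∧ c = s + k * h := by
    intro c hc
    obtain ⟨k, hk, rfl⟩ := hZmem c hc
    exact ⟨k, hk, by simp, by simp, rfl⟩
  have hZin : ∀ c ∈ Z, |c.re| < θ ∧ |c.im| < Y := by
    intro c hc
    obtain ⟨k, hk, h1, h2, _⟩ := hcre c hc
    have hkr : ((k : ℝ) + 1) * h ≤ m * h := by
      have : (k : ℝ) + 1 ≤ m := by exact_mod_cast hk
      exact mul_le_mul_of_nonneg_right this hh0.le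
    have hk0' : 0 ≤ (k : ℝ) * h := by positivity
    rw [h1, h2, abs_zero, abs_lt]
    exact ⟨⟨by linarith, by linarith⟩, hY0⟩
  have hΔc : ∀ c ∈ Z, ‖Δ c‖ ≤ M * Real.exp (-(c1 * N)) := by
    intro c hc
    obtain ⟨k, hk, h1, _, h3⟩ := hcre c hc
    have h4 := (hZin c hc).1
    have h5 : (2 * ((j + k : ℕ) : ℝ) + 1 - N) / N = s + k * h := by
      rw [hs, hh]
      push_cast
      field_simp
      ring
    have h6 := hlat (j + k) (by omega) (by
      rw [h5, ← h1]
      linarith)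
    have h7 : zl N (j + k) / N = c := by
      rw [h3, hs, hh]
      unfold zl
      push_cast
      field_simp
      ring
    rwa [h7] at h6
  -- interpolation
  obtain ⟨L, hL⟩ : ∃ L : ℂ → ℂ, L = fun v => ∑ c ∈ Z, Δ c * (dslope S c v / deriv S c) := ⟨_, rfl⟩
  have hdsl : ∀ c : ℂ, Differentiable ℂ (dslope S c) := by
    intro c
    have h1 := (Complex.differentiableOn_dslope (f := S) (c := c) (s := Set.univ)
      Filter.univ_mem).mpr hSdiff.differentiableOn
    exact differentiableOn_univ.mp h1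
  have hLdiff : Differentiable ℂ L := by
    rw [hL]
    intro v
    apply DifferentiableAt.fun_sum
    intro c _
    exact ((hdsl c v).div_const _).const_mul _
  have hdne : ∀ c ∈ Z, ∀ v : ℂ, v ≠ c → dslope S c v = S v / (v - c) := by
    intro c hc v hv
    rw [dslope_of_ne _ hv, slope_def_field, hSc c hc, sub_zero]
  have hLc : ∀ c ∈ Z, L c = Δ c := by
    intro c hc
    rw [hL]
    simp only
    rw [Finset.sum_eq_single_of_mem c hc]
    · rw [dslope_same, div_self (hdSne c hc), mul_one]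
    · intro c' hc' hne
      rw [hdne c' hc' c hne.symm, hSc c hc, zero_div, zero_div, mul_zero]
  have hball : ∀ v : ℂ, |v.re| ≤ θ → |v.im| ≤ Y → v ∈ Metric.ball (0 : ℂ) r := by
    intro v h1 h2
    rw [Metric.mem_ball, dist_zero_right]
    have := Complex.norm_le_abs_re_add_abs_im v
    linarith
  have hSZ : ∀ v : ℂ, |v.re| ≤ θ → |v.im| ≤ Y → S v = 0 → v ∈ Z := by
    intro v h1 _ h3
    rw [hS] at h3
    obtain ⟨n, hn⟩ := sin_ang_zero hh0 h3
    have h4 : v.re = s + n * h := by rw [hn]; simp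
    rw [abs_le, h4] at h1
    have h5 : (-(1 / 2) : ℝ) * h ≤ n * h := by linarith [h1.1]
    have h6 : (n : ℝ) * h ≤ (m - 1 / 2) * h := by linarith [h1.2]
    have h7 := le_of_mul_le_mul_right h5 hh0
    have h8 := le_of_mul_le_mul_right h6 hh0
    have h9 : (-1 : ℝ) < n := by linarith
    have h10 : (n : ℝ) < m := by linarith
    have h11 : -1 < n := by exact_mod_cast h9
    have h12 : n < m := by exact_mod_cast h10
    rw [hZ, Finset.mem_image]
    refine ⟨n.toNat, Finset.mem_range.2 (by omega), ?_⟩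
    rw [hn]
    have h13 : ((n.toNat : ℕ) : ℂ) = (n : ℂ) := by
      have : ((n.toNat : ℕ) : ℤ) = n := by omega
      exact_mod_cast congrArg (fun z : ℤ => (z : ℂ)) this
    rw [h13]
  -- the boundary
  obtain ⟨Bq, hBq⟩ : ∃ Bq : ℝ, Bq = 4 * M * Real.exp (-(c' * N)) + N * (M * Real.exp (-(c1 * N))) := ⟨_, rfl⟩
  have hME : 0 ≤ M * Real.exp (-(c1 * N)) := by positivity
  have hbound : ∀ v : ℂ, |v.re| ≤ θ → |v.im| ≤ Y → (|v.re| = θ ∨ |v.im| = Y) →
      ‖(Δ v - L v) / S v‖ ≤ Bq := by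
    intro v h1 h2 h3
    have hnZ : v ∉ Z := by
      intro hv
      have h4 := hZin v hv
      rcases h3 with h5 | h5 <;> linarith
    have hSv : S v ≠ 0 := fun h4 => hnZ (hSZ v h1 h2 h4)
    have hSv0 : 0 < ‖S v‖ := norm_pos_iff.2 hSv
    have hdist : ∀ c ∈ Z, h / 2 ≤ ‖v - c‖ := by
      intro c hc
      obtain ⟨k, hk, hc1', hc2', _⟩ := hcre c hc
      have hkr : ((k : ℝ) + 1) * h ≤ m * h := by
        have : (k : ℝ) + 1 ≤ m := by exact_mod_cast hk
        exact mul_le_mul_of_nonneg_right this hh0.le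
      have hk0' : 0 ≤ (k : ℝ) * h := by positivity
      rcases h3 with h5 | h5
      · refine le_trans ?_ (Complex.abs_re_le_norm _)
        rw [Complex.sub_re, hc1']
        rcases abs_eq hθ0.le |>.1 h5 with h6 | h6
        · rw [h6]
          refine le_trans ?_ (le_abs_self _)
          linarith
        · rw [h6]
          refine le_trans ?_ (neg_le_abs _)
          linarith
      · refine le_trans ?_ (Complex.abs_im_le_norm _)
        rw [Complex.sub_im, hc2', sub_zero, h5, hh]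
        rw [div_div, div_le_iff₀ (by positivity)]
        linarith
    have hLv : ‖L v / S v‖ ≤ N * (M * Real.exp (-(c1 * N))) := by
      have h4 : L v / S v = ∑ c ∈ Z, Δ c * ((v - c)⁻¹ / deriv S c) := by
        rw [hL, Finset.sum_div]
        refine Finset.sum_congr rfl (fun c hc => ?_)
        have hvc : v ≠ c := by
          rintro rfl
          exact hnZ hc
        have hvc' : v - c ≠ 0 := sub_ne_zero.2 hvc
        have := hdSne c hc
        rw [hdne c hc v hvc]
        field_simp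
      rw [h4]
      have h5 : ∀ c ∈ Z, ‖Δ c * ((v - c)⁻¹ / deriv S c)‖ ≤ M * Real.exp (-(c1 * N)) := by
        intro c hc
        rw [norm_mul, norm_div, norm_inv, hdSc c hc]
        have h6 := hdist c hc
        have h7 : 0 < ‖v - c‖ := lt_of_lt_of_le (by positivity) h6
        have h8 : ‖v - c‖⁻¹ / (Real.pi / h) ≤ 1 := by
          rw [div_le_one hpih0, inv_le_comm₀ h7 hpih0]
          calc (Real.pi / h)⁻¹ = h / Real.pi := by rw [inv_div]
            _ ≤ h / 2 := by
                apply div_le_div_of_nonneg_left hh0.le (by norm_num)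
                linarith
            _ ≤ ‖v - c‖ := h6
        calc ‖Δ c‖ * (‖v - c‖⁻¹ / (Real.pi / h)) ≤ ‖Δ c‖ * 1 := by gcongr
          _ = ‖Δ c‖ := mul_one _
          _ ≤ M * Real.exp (-(c1 * N)) := hΔc c hc
      refine (norm_sum_le_of_le _ h5).trans ?_
      rw [Finset.sum_const, nsmul_eq_mul]
      exact mul_le_mul_of_nonneg_right hZcard hME
    have hΔv : ‖Δ v / S v‖ ≤ 4 * M * Real.exp (-(c' * N)) := by
      have h4 := hmaj v (hball v h1 h2)
      rw [norm_div, div_le_iff₀ hSv0]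
      rcases h3 with h5 | h5
      · -- vertical sides
        have h6 : 1 ≤ ‖S v‖ := by
          rw [hS]
          rcases abs_eq hθ0.le |>.1 h5 with h6 | h6
          · have h7 := (mid_line (s := s) hh0 (m : ℤ) v.im).1
            have h8 : (((s + ((m : ℤ) : ℝ) * h - h / 2 : ℝ) : ℂ) + v.im * I) = v := by
              rw [Int.cast_natCast, ← e1, ← h6]
              exact Complex.re_add_im v
            rw [h8] at h7
            rw [h7]
            exact Real.one_le_cosh _
          · have h7 := (mid_line (s := s) hh0 0 v.im).1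
            have h8 : (((s + ((0 : ℤ) : ℝ) * h - h / 2 : ℝ) : ℂ) + v.im * I) = v := by
              rw [Int.cast_zero, zero_mul, add_zero, ← e0, ← h6]
              exact Complex.re_add_im v
            rw [h8] at h7
            rw [h7]
            exact Real.one_le_cosh _
        have h7 : N * (-κ * v.re ^ 2 + K * v.im ^ 2) ≤ -(c' * N) := by
          have h8 : (5 * r / 8) ^ 2 ≤ v.re ^ 2 := by
            rw [← sq_abs v.re, h5]
            exact pow_le_pow_left₀ (by positivity) hθ1 2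
          have h9 : v.im ^ 2 ≤ Y ^ 2 := by
            rw [← sq_abs v.im]
            exact pow_le_pow_left₀ (abs_nonneg _) h2 2
          have h10 : κ * (5 * r / 8) ^ 2 ≤ κ * v.re ^ 2 := mul_le_mul_of_nonneg_left h8 hκ.le
          have h11 : K * v.im ^ 2 ≤ K * Y ^ 2 := mul_le_mul_of_nonneg_left h9 hK.le
          have h12 : -κ * v.re ^ 2 + K * v.im ^ 2 ≤ -c' := by linarith
          have := mul_le_mul_of_nonneg_left h12 hN0.le
          linarith
        have h8 : Real.exp (N * (-κ * v.re ^ 2 + K * v.im ^ 2)) ≤ Real.exp (-(c' * N)) := Real.exp_le_exp.2 h7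
        calc ‖Δ v‖ ≤ M * Real.exp (N * (-κ * v.re ^ 2 + K * v.im ^ 2)) := h4
          _ ≤ M * Real.exp (-(c' * N)) := by gcongr
          _ ≤ 4 * M * Real.exp (-(c' * N)) * 1 := by
              have : 0 ≤ M * Real.exp (-(c' * N)) := by positivity
              linarith
          _ ≤ 4 * M * Real.exp (-(c' * N)) * ‖S v‖ := by gcongr
      · -- horizontal sides
        obtain ⟨t, ht⟩ : ∃ t : ℝ, t = Real.pi * Y * N / 2 := ⟨_, rfl⟩
        have ht1 : 1 ≤ t := by rw [ht]; nlinarith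
        have hang : (ang s h v).im = t ∨ (ang s h v).im = -t := by
          rw [ang_im]
          rcases abs_eq hY0.le |>.1 h5 with h6 | h6
          · left
            rw [h6, ht, hh]
            field_simp
          · right
            rw [h6, ht, hh]
            field_simp
        have h6 : (Real.exp t - Real.exp (-t)) / 2 ≤ ‖S v‖ := by
          rw [hS]
          rcases hang with h7 | h7
          · have := (norm_sin_ge (ang s h v)).1
            rw [h7] at this
            exact this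
          · have := (norm_sin_ge (ang s h v)).2
            rw [h7, neg_neg] at this
            exact this
        have h7 : Real.exp (-t) ≤ Real.exp t / 2 := by
          have h8 : Real.exp t = Real.exp (2 * t) * Real.exp (-t) := by
            rw [← Real.exp_add]
            congr 1
            ring
          have h9 : 2 ≤ Real.exp (2 * t) := by
            have := Real.add_one_le_exp (2 * t)
            linarith
          have h10 := Real.exp_pos (-t)
          rw [h8]
          nlinarith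
        have h8 : Real.exp t / 4 ≤ ‖S v‖ := by linarith
        have h9 : N * (-κ * v.re ^ 2 + K * v.im ^ 2) ≤ -(c' * N) + t := by
          have h10 : 0 ≤ κ * v.re ^ 2 := by positivity
          have h11 : v.im ^ 2 = Y ^ 2 := by rw [← sq_abs v.im, h5]
          have h12 : -κ * v.re ^ 2 + K * v.im ^ 2 ≤ -c' + Real.pi * Y / 2 := by
            rw [h11]
            linarith
          have := mul_le_mul_of_nonneg_left h12 hN0.le
          rw [ht]
          linarith
        have h10 : Real.exp (N * (-κ * v.re ^ 2 + K * v.im ^ 2)) ≤ Real.exp (-(c' * N)) * Real.exp t := by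
          rw [← Real.exp_add]
          exact Real.exp_le_exp.2 h9
        calc ‖Δ v‖ ≤ M * Real.exp (N * (-κ * v.re ^ 2 + K * v.im ^ 2)) := h4
          _ ≤ M * (Real.exp (-(c' * N)) * Real.exp t) := by gcongr
          _ = 4 * M * Real.exp (-(c' * N)) * (Real.exp t / 4) := by ring
          _ ≤ 4 * M * Real.exp (-(c' * N)) * ‖S v‖ := by gcongr
    rw [sub_div, hBq]
    exact (norm_sub_le _ _).trans (add_le_add hΔv hLv)
  have hmain := quot_bound Metric.isOpen_ball hθ0 hY0 hball Z (fun v => Δ v - L v) S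
    (hΔ.sub hLdiff.differentiableOn) hSdiff hZin (fun c hc => by rw [hLc c hc, sub_self]) hSc hSZ hdSne hbound
    ζ (by linarith) (by linarith)
  -- the end
  obtain ⟨EX, hEX⟩ : ∃ EX : ℝ, EX = Real.exp (cc / 2 * N) := ⟨_, rfl⟩
  have hEX1 : 1 ≤ EX := by rw [hEX]; exact Real.one_le_exp (by positivity)
  have him : Real.exp (Real.pi * |ζ.im| / h) ≤ EX := by
    rw [hEX]
    apply Real.exp_le_exp.2
    have h1 : Real.pi * |ζ.im| ≤ cc := by
      have := mul_le_mul_of_nonneg_left hζ2 hpi.le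
      linarith
    have h2 : Real.pi * |ζ.im| / h = Real.pi * |ζ.im| * (N / 2) := by
      rw [hh]
      field_simp
    rw [h2]
    calc Real.pi * |ζ.im| * ((N : ℝ) / 2) ≤ cc * ((N : ℝ) / 2) := by gcongr
      _ = cc / 2 * N := by ring
  have hSζ : ‖S ζ‖ ≤ EX := by
    rw [hS]
    refine (norm_sin_le_exp _).trans (le_trans (le_of_eq ?_) him)
    rw [ang_im]
    congr 1
    rw [abs_div, abs_mul, abs_of_pos hpi, abs_of_pos hh0]
  have hLζ : ‖L ζ‖ ≤ N * (M * Real.exp (-(c1 * N)) * EX) := by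
    rw [hL]
    have h5 : ∀ c ∈ Z, ‖Δ c * (dslope S c ζ / deriv S c)‖ ≤ M * Real.exp (-(c1 * N)) * EX := by
      intro c hc
      rw [norm_mul]
      apply mul_le_mul (hΔc c hc) _ (norm_nonneg _) hME
      by_cases hv : ζ = c
      · rw [hv, dslope_same, div_self (hdSne c hc), norm_one]
        exact hEX1
      · obtain ⟨k, _, hck⟩ := hZmem c hc
        have h6 : 0 < ‖ζ - c‖ := norm_pos_iff.2 (sub_ne_zero.2 hv)
        rw [hdne c hc ζ hv, norm_div, norm_div, hdSc c hc, div_le_iff₀ hpih0, div_le_iff₀ h6]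
        have h7 := S_near (s := s) hh0 k ζ
        rw [← hck] at h7
        rw [hS]
        refine h7.trans ?_
        rw [mul_assoc]
        exact mul_le_mul_of_nonneg_right him (by positivity)
    refine (norm_sum_le_of_le _ h5).trans ?_
    rw [Finset.sum_const, nsmul_eq_mul]
    exact mul_le_mul_of_nonneg_right hZcard (by positivity)
  have hfin : ‖Δ ζ‖ ≤ Bq * EX + N * (M * Real.exp (-(c1 * N)) * EX) := by
    have h1 : Δ ζ = (Δ ζ - L ζ) + L ζ := by ring
    have hBq0 : 0 ≤ Bq := by rw [hBq]; positivity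
    rw [h1]
    refine (norm_add_le _ _).trans (add_le_add (hmain.trans ?_) hLζ)
    exact mul_le_mul_of_nonneg_left hSζ hBq0
  have hx1 : Real.exp (-(c' * N)) ≤ Real.exp (-(cc * N)) := by
    apply Real.exp_le_exp.2
    have := mul_le_mul_of_nonneg_right hcc2 hN0.le
    linarith
  have hx2 : Real.exp (-(c1 * N)) ≤ Real.exp (-(cc * N)) := by
    apply Real.exp_le_exp.2
    have := mul_le_mul_of_nonneg_right hcc1 hN0.le
    linarith
  have hx3 : Real.exp (-(cc / 2 * N)) = Real.exp (-(cc * N)) * EX := by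
    rw [hEX, ← Real.exp_add]
    congr 1
    ring
  obtain ⟨X, hX⟩ : ∃ X : ℝ, X = Real.exp (-(cc * N)) := ⟨_, rfl⟩
  rw [← hX] at hx1 hx2 hx3
  have hX0 : 0 < X := by rw [hX]; exact Real.exp_pos _
  refine hfin.trans ?_
  rw [hBq, hx3]
  have g1 : M * Real.exp (-(c' * N)) ≤ M * X := mul_le_mul_of_nonneg_left hx1 hM
  have g2 : M * Real.exp (-(c1 * N)) ≤ M * X := mul_le_mul_of_nonneg_left hx2 hM
  have g3 : 0 ≤ M * X := by positivity
  have g4 : (N : ℝ) * (M * Real.exp (-(c1 * N))) ≤ N * (M * X) := mul_le_mul_of_nonneg_left g2 hN0.le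
  have g5 : M * X ≤ N * (M * X) := by nlinarith
  have hEX0 : 0 ≤ EX := by linarith
  calc (4 * M * Real.exp (-(c' * N)) + N * (M * Real.exp (-(c1 * N)))) * EX + N * (M * Real.exp (-(c1 * N)) * EX) =
        (4 * (M * Real.exp (-(c' * N))) + 2 * (N * (M * Real.exp (-(c1 * N))))) * EX := by ring
    _ ≤ (4 * (N * (M * X)) + 2 * (N * (M * X))) * EX := by
        apply mul_le_mul_of_nonneg_right _ hEX0
        linarith
    _ = 6 * N * M * (X * EX) := by ring

end Pool.Agent.Q237.HT
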