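import Pool.Agent.Q99.HT.Stm3

/-! Job HT-MPX: a sum as an integral, several variables. -/

set_option autoImplicit false

namespace Pool.Agent.Q237.HT

open MeasureTheory
open Pool.Agent.Q99.HT

section cons

variable {β : Type} {d : ℕ}

/-- one more coordinate -/
def cns (z : β) (X : Fin d → β) : Fin (d + 1) → β := Fin.cons (α := fun _ => β) z X

lemma cns_zero (z : β) (X : Fin d → β) : cns z X 0 = z := rfl

lemma cns_succ (z : β) (X : Fin d → β) (i : Fin d) : cns z X i.succ = X i := rfl

lemma cns_eta (x : Fin (d + 1) → β) : cns (x 0) (fun i => x i.succ) = x := by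
  funext i
  refine Fin.cases ?_ ?_ i
  · rfl
  · intro j
    rfl

lemma cns_map {γ : Type} (φ : β → γ) (z : β) (X : Fin d → β) :
    (fun i => φ (cns z X i)) = cns (φ z) (fun i => φ (X i)) := by
  funext i
  refine Fin.cases ?_ ?_ i
  · rfl
  · intro j
    rfl

lemma cns_cont [TopologicalSpace β] : Continuous fun p : β × (Fin d → β) => cns p.1 p.2 := by
  apply continuous_pi
  intro i
  refine Fin.cases ?_ ?_ i
  · exact continuous_fst
  · intro j
    exact (continuous_apply j).comp continuous_snd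

lemma sum_cns {E : Type} [AddCommMonoid E] (S : Fin (d + 1) → Finset ℤ) (g : (Fin (d + 1) → ℤ) → E) :
    ∑ t ∈ Fintype.piFinset S, g t =
      ∑ t0 ∈ S 0, ∑ t' ∈ Fintype.piFinset (fun i : Fin d => S i.succ), g (cns t0 t') := by
  rw [← Finset.sum_product']
  apply Finset.sum_nbij' (fun t => (t 0, fun i => t i.succ)) (fun p => cns p.1 p.2)
  · intro t ht
    rw [Fintype.mem_piFinset] at ht
    rw [Finset.mem_product, Fintype.mem_piFinset]
    exact ⟨ht 0, fun i => ht i.succ⟩
  · intro p hp
    rw [Finset.mem_product, Fintype.mem_piFinset] at hp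
    rw [Fintype.mem_piFinset]
    intro i
    refine Fin.cases ?_ ?_ i
    · exact hp.1
    · intro j
      exact hp.2 j
  · intro t _
    exact cns_eta t
  · intro p _
    rfl
  · intro t _
    rw [cns_eta]

end cons

lemma box_compact {d : ℕ} (l h : Fin d → ℝ) : IsCompact (Set.univ.pi fun i => Set.Icc (l i) (h i)) :=
  isCompact_univ_pi fun _ => isCompact_Icc

lemma int_cns {d : ℕ} (l h : Fin (d + 1) → ℝ) (G : (Fin (d + 1) → ℝ) → ℂ)
    (hG : ContinuousOn G (Set.univ.pi fun i => Set.Icc (l i) (h i))) :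
    IntegrableOn (fun y : ℝ × (Fin d → ℝ) => G (cns y.1 y.2))
      (Set.Icc (l 0) (h 0) ×ˢ (Set.univ.pi fun i : Fin d => Set.Icc (l i.succ) (h i.succ))) (volume.prod volume) ∧
    ∫ x in Set.univ.pi (fun i => Set.Icc (l i) (h i)), G x =
      ∫ x0 in Set.Icc (l 0) (h 0), ∫ x' in Set.univ.pi (fun i : Fin d => Set.Icc (l i.succ) (h i.succ)),
        G (cns x0 x') := by
  have hcont : ContinuousOn (fun y : ℝ × (Fin d → ℝ) => G (cns y.1 y.2))
      (Set.Icc (l 0) (h 0) ×ˢ (Set.univ.pi fun i : Fin d => Set.Icc (l i.succ) (h i.succ))) := by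
    apply hG.comp cns_cont.continuousOn
    intro y hy
    rw [Set.mem_univ_pi]
    intro i
    refine Fin.cases ?_ ?_ i
    · exact hy.1
    · intro j
      exact (Set.mem_univ_pi.1 hy.2) j
  have hint : IntegrableOn (fun y : ℝ × (Fin d → ℝ) => G (cns y.1 y.2))
      (Set.Icc (l 0) (h 0) ×ˢ (Set.univ.pi fun i : Fin d => Set.Icc (l i.succ) (h i.succ)))
      (volume.prod volume) :=
    hcont.integrableOn_compact (isCompact_Icc.prod (box_compact _ _))
  refine ⟨hint, ?_⟩
  have he : ∀ x : Fin (d + 1) → ℝ, cns ((MeasurableEquiv.piFinSuccAbove (fun _ : Fin (d + 1) => ℝ) 0) x).1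
      ((MeasurableEquiv.piFinSuccAbove (fun _ : Fin (d + 1) => ℝ) 0) x).2 = x := by
    intro x
    exact cns_eta x
  have h1 := (volume_preserving_piFinSuccAbove (fun _ : Fin (d + 1) => ℝ) 0).setIntegral_preimage_emb
    (MeasurableEquiv.piFinSuccAbove (fun _ : Fin (d + 1) => ℝ) 0).measurableEmbedding
    (fun y : ℝ × (Fin d → ℝ) => G (cns y.1 y.2))
    (Set.Icc (l 0) (h 0) ×ˢ (Set.univ.pi fun i : Fin d => Set.Icc (l i.succ) (h i.succ)))
  have hpre : (MeasurableEquiv.piFinSuccAbove (fun _ : Fin (d + 1) => ℝ) 0) ⁻¹'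
      (Set.Icc (l 0) (h 0) ×ˢ (Set.univ.pi fun i : Fin d => Set.Icc (l i.succ) (h i.succ))) =
      Set.univ.pi (fun i => Set.Icc (l i) (h i)) := by
    ext x
    rw [Set.mem_preimage, Set.mem_prod, Set.mem_univ_pi, Set.mem_univ_pi]
    constructor
    · rintro ⟨h2, h3⟩ i
      refine Fin.cases ?_ ?_ i
      · exact h2
      · intro j
        exact h3 j
    · intro h2
      exact ⟨h2 0, fun j => h2 j.succ⟩
  rw [hpre] at h1
  simp only [he] at h1
  rw [h1]
  exact setIntegral_prod _ hint

lemma lo_le_hi {N : ℕ} (hN : 1 ≤ N) {a b : ℤ} (hab : a ≤ b) : lo N a ≤ hi N b := by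
  have hN0 : (0 : ℝ) < N := by exact_mod_cast hN
  have h1 : (a : ℝ) ≤ b := by exact_mod_cast hab
  unfold lo hi
  rw [div_le_div_iff_of_pos_right hN0]
  linarith

lemma len_eq {N : ℕ} (hN : 1 ≤ N) (a b : ℤ) : (N : ℝ) * (hi N b - lo N a) = (b : ℝ) - a + 1 := by
  have hN0 : (0 : ℝ) < N := by exact_mod_cast hN
  unfold lo hi
  field_simp
  ring

lemma lat_mem {N : ℕ} (hN : 1 ≤ N) {a b t : ℤ} (ht : t ∈ Finset.Icc a b) :
    (((t : ℂ) / N)).re ∈ Set.Icc (lo N a) (hi N b) ∧ ((t : ℂ) / N).im = 0 := by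
  have hN0 : (0 : ℝ) < N := by exact_mod_cast hN
  rw [Finset.mem_Icc] at ht
  have h1 : (a : ℝ) ≤ t := by exact_mod_cast ht.1
  have h2 : (t : ℝ) ≤ b := by exact_mod_cast ht.2
  have h3 : (t : ℂ) / N = ((t / N : ℝ) : ℂ) := by push_cast; rfl
  rw [h3, Complex.ofReal_re, Complex.ofReal_im]
  refine ⟨⟨?_, ?_⟩, rfl⟩
  · unfold lo
    rw [div_le_div_iff_of_pos_right hN0]
    linarith
  · unfold hi
    rw [div_le_div_iff_of_pos_right hN0]
    linarith

lemma cns_PR {d N : ℕ} {a b : Fin (d + 1) → ℤ} {τ : ℝ} {z : ℂ} {X : Fin d → ℂ}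
    (hz : z.re ∈ Set.Icc (lo N (a 0)) (hi N (b 0)) ∧ |z.im| ≤ τ)
    (hX : X ∈ PR N (fun i => a i.succ) (fun i => b i.succ) τ) : cns z X ∈ PR N a b τ := by
  intro i
  refine Fin.cases ?_ ?_ i
  · exact hz
  · intro j
    exact hX j

lemma sh_PR {d N : ℕ} {a b : Fin d → ℤ} {τ : ℝ} {η : Fin d → ℝ} (hη : ∀ i, |η i| ≤ τ) {x : Fin d → ℝ}
    (hx : x ∈ Set.univ.pi (fun i => Set.Icc (lo N (a i)) (hi N (b i)))) :
    (fun i => (x i + η i * Complex.I : ℂ)) ∈ PR N a b τ := by
  intro i
  have h1 := (Set.mem_univ_pi.1 hx) i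
  constructor
  · simpa using h1
  · simpa using hη i

lemma LD_cns {d : ℕ} {f : (Fin (d + 1) → ℂ) → ℂ} {U : Set (Fin (d + 1) → ℂ)} (hf : LD f U) (z : ℂ) :
    LD (fun X => f (cns z X)) {X | cns z X ∈ U} := by
  constructor
  · have h1 : Continuous fun X : Fin d → ℂ => cns z X :=
      cns_cont.comp (Continuous.prodMk continuous_const continuous_id)
    exact hf.1.comp (f := fun X : Fin d → ℂ => cns z X) h1.continuousOn (fun X hX => hX)
  · intro X hX u
    have h1 := hf.2 (cns z X) hX (cns 0 u)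
    have h2 : (fun t : ℂ => f (cns z (X + t • u))) = fun t : ℂ => f (cns z X + t • cns 0 u) := by
      funext t
      congr 1
      funext i
      refine Fin.cases ?_ ?_ i
      · simp [cns_zero]
      · intro j
        simp [cns_succ]
    rw [h2]
    exact h1

lemma slice_diff {d : ℕ} {f : (Fin (d + 1) → ℂ) → ℂ} {U : Set (Fin (d + 1) → ℂ)} (hf : LD f U)
    (X : Fin d → ℂ) : DifferentiableOn ℂ (fun z => f (cns z X)) {z | cns z X ∈ U} := by
  intro z hz
  have h1 := hf.2 (cns z X) hz (cns 1 0)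
  have h2 : (fun t : ℂ => f (cns z X + t • cns 1 0)) = fun t : ℂ => f (cns (t + z) X) := by
    funext t
    congr 1
    funext i
    refine Fin.cases ?_ ?_ i
    · simp [cns_zero, add_comm]
    · intro j
      simp [cns_succ]
  rw [h2] at h1
  have h3 : DifferentiableAt ℂ (fun t : ℂ => t - z) z := by fun_prop
  have h4 : (fun z' : ℂ => f (cns z' X)) = (fun t : ℂ => f (cns (t + z) X)) ∘ (fun t : ℂ => t - z) := by
    funext t
    simp
  rw [h4]
  apply DifferentiableAt.differentiableWithinAt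
  apply DifferentiableAt.comp
  · rw [sub_self]
    exact h1
  · exact h3

theorem task_MPX : S_MPX := by
  intro hGPX
  obtain ⟨CG, hCG, hG⟩ := hGPX
  intro d
  induction d with
  | zero =>
    refine ⟨0, le_rfl, ?_⟩
    intro N hN a b hab f U τ A B L η _ _ _ _ _ _ _ _ _ _
    have h1 : Fintype.piFinset (fun i : Fin 0 => Finset.Icc (a i) (b i)) = {fun i => i.elim0} := by
      ext t
      rw [Fintype.mem_piFinset, Finset.mem_singleton]
      constructor
      · intro _
        exact Subsingleton.elim _ _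
      · intro _ i
        exact i.elim0
    have h2 : (Set.univ.pi fun i : Fin 0 => Set.Icc (lo N (a i)) (hi N (b i))) = Set.univ := by
      ext t
      simp
    rw [h1, h2, Finset.sum_singleton, Measure.restrict_univ]
    have h3 : (volume : Measure (Fin 0 → ℝ)) = Measure.dirac (fun i => i.elim0) := by
      rw [volume_pi, Measure.pi_of_empty]
      congr 1
    rw [h3, integral_dirac]
    have h4 : (fun i : Fin 0 => (((fun i : Fin 0 => (i.elim0 : ℤ)) i : ℤ) : ℂ) / N) =
        (fun i : Fin 0 => (((fun i : Fin 0 => (i.elim0 : ℝ)) i : ℝ) : ℂ) + η i * Complex.I) := Subsingleton.elim _ _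
    rw [h4]
    simp
  | succ d ih =>
    obtain ⟨C1, hC1, h1⟩ := ih
    refine ⟨C1 + 2 * CG, by positivity, ?_⟩
    intro N hN a b hab f U τ A B L η hU hLD hPR hτN hτ hη hL hlen hA hB
    have hN0 : (0 : ℝ) < N := by exact_mod_cast hN
    have hτ0 : 0 < τ := by
      by_contra hcon
      push Not at hcon
      nlinarith
    obtain ⟨E, hE⟩ : ∃ E : ℝ, E = Real.exp (-(2 * Real.pi * τ * N)) * A + B := ⟨_, rfl⟩
    obtain ⟨a', ha'⟩ : ∃ a' : Fin d → ℤ, a' = fun i => a i.succ := ⟨_, rfl⟩
    obtain ⟨b', hb'⟩ : ∃ b' : Fin d → ℤ, b' = fun i => b i.succ := ⟨_, rfl⟩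
    obtain ⟨η', hη'⟩ : ∃ η' : Fin d → ℝ, η' = fun i => η i.succ := ⟨_, rfl⟩
    have hη'τ : ∀ i, |η' i| ≤ τ := fun i => by rw [hη']; exact hη i.succ
    obtain ⟨Bx, hBx⟩ : ∃ Bx : Set (Fin d → ℝ), Bx = Set.univ.pi (fun i => Set.Icc (lo N (a' i)) (hi N (b' i))) :=
      ⟨_, rfl⟩
    obtain ⟨I0, hI0⟩ : ∃ I0 : Set ℝ, I0 = Set.Icc (lo N (a 0)) (hi N (b 0)) := ⟨_, rfl⟩
    have hlh0 := lo_le_hi hN (hab 0)
    have hBxc : IsCompact Bx := by rw [hBx]; exact box_compact _ _
    have hBxm : MeasurableSet Bx := hBxc.isClosed.measurableSet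
    -- points
    have hcnsPR : ∀ (z : ℂ) (X : Fin d → ℂ), z.re ∈ Set.Icc (lo N (a 0)) (hi N (b 0)) ∧ |z.im| ≤ τ →
        X ∈ PR N a' b' τ → cns z X ∈ PR N a b τ := by
      intro z X hz hX
      rw [ha', hb'] at hX
      exact cns_PR hz hX
    have hsh : ∀ x ∈ Bx, (fun i => (x i + η' i * Complex.I : ℂ)) ∈ PR N a' b' τ := by
      intro x hx
      rw [hBx] at hx
      exact sh_PR hη'τ hx
    have hne : (fun i => ((lo N (a' i) : ℝ) : ℂ)) ∈ PR N a' b' τ := by
      intro i
      have h2 : a' i ≤ b' i := by rw [ha', hb']; exact hab i.succ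
      simp only [Complex.ofReal_re, Complex.ofReal_im, abs_zero]
      exact ⟨⟨le_rfl, lo_le_hi hN h2⟩, hτ0.le⟩
    have hcorner : cns ((lo N (a 0) : ℝ) : ℂ) (fun i => ((lo N (a' i) : ℝ) : ℂ)) ∈ PR N a b τ := by
      apply hcnsPR _ _ _ hne
      simp only [Complex.ofReal_re, Complex.ofReal_im, abs_zero]
      exact ⟨⟨le_rfl, hlh0⟩, hτ0.le⟩
    have hA0 : 0 ≤ A := (norm_nonneg _).trans (hA _ hcorner)
    have hB0 : 0 ≤ B := (norm_nonneg _).trans (hB _ hcorner ⟨0, Or.inl (by rw [cns_zero, Complex.ofReal_re])⟩)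
    have hE0 : 0 ≤ E := by rw [hE]; positivity
    -- the sum
    have hsum : ∑ t ∈ Fintype.piFinset (fun i => Finset.Icc (a i) (b i)), f (fun i => (t i : ℂ) / N) =
        ∑ t0 ∈ Finset.Icc (a 0) (b 0), ∑ t' ∈ Fintype.piFinset (fun i => Finset.Icc (a' i) (b' i)),
          f (cns ((t0 : ℂ) / N) (fun i => (t' i : ℂ) / N)) := by
      rw [sum_cns, ha', hb']
      refine Finset.sum_congr rfl fun t0 _ => Finset.sum_congr rfl fun t' _ => ?_
      rw [← cns_map (fun n : ℤ => (n : ℂ) / N)]
    -- the integral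
    have hcontG : ContinuousOn (fun x : Fin (d + 1) → ℝ => f (fun i => x i + η i * Complex.I))
        (Set.univ.pi fun i => Set.Icc (lo N (a i)) (hi N (b i))) := by
      apply hLD.1.comp
      · apply Continuous.continuousOn
        apply continuous_pi
        intro i
        have : Continuous fun x : Fin (d + 1) → ℝ => x i := continuous_apply i
        fun_prop
      · intro x hx
        exact hPR (sh_PR hη hx)
    obtain ⟨hint, hintEq⟩ := int_cns (fun i => lo N (a i)) (fun i => hi N (b i)) _ hcontG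
    have hcm : ∀ (x0 : ℝ) (x' : Fin d → ℝ), (fun i => ((cns x0 x' i : ℝ) : ℂ) + η i * Complex.I) =
        cns (x0 + η 0 * Complex.I) (fun i => x' i + η' i * Complex.I) := by
      intro x0 x'
      funext i
      refine Fin.cases ?_ ?_ i
      · rfl
      · intro j
        rw [hη']
        rfl
    simp only [hcm] at hint hintEq
    have hBx' : (Set.univ.pi fun i : Fin d => Set.Icc (lo N (a i.succ)) (hi N (b i.succ))) = Bx := by
      rw [hBx, ha', hb']
    rw [hBx', ← hI0] at hint hintEq
    rw [hsum, hintEq]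
    -- exchange of the integrals
    have hswap : ∫ x0 in I0, ∫ x' in Bx, f (cns (x0 + η 0 * Complex.I) (fun i => x' i + η' i * Complex.I)) =
        ∫ x' in Bx, ∫ x0 in I0, f (cns (x0 + η 0 * Complex.I) (fun i => x' i + η' i * Complex.I)) := by
      apply integral_integral_swap
      rw [Measure.prod_restrict]
      exact hint
    have hinner : Integrable (fun x' : Fin d → ℝ => ∫ x0 in I0,
        f (cns (x0 + η 0 * Complex.I) (fun i => x' i + η' i * Complex.I))) (volume.restrict Bx) := by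
      have h2 : Integrable (Function.uncurry fun (x0 : ℝ) (x' : Fin d → ℝ) =>
          f (cns (x0 + η 0 * Complex.I) (fun i => x' i + η' i * Complex.I)))
          ((volume.restrict I0).prod (volume.restrict Bx)) := by
        rw [Measure.prod_restrict]
        exact hint
      exact h2.integral_prod_right
    have hcontx : ∀ z : ℂ, z.re ∈ Set.Icc (lo N (a 0)) (hi N (b 0)) ∧ |z.im| ≤ τ →
        ContinuousOn (fun x' : Fin d → ℝ => f (cns z (fun i => x' i + η' i * Complex.I))) Bx := by
      intro z hz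
      apply hLD.1.comp
      · apply Continuous.continuousOn
        apply cns_cont.comp (Continuous.prodMk continuous_const _)
        apply continuous_pi
        intro i
        have : Continuous fun x : Fin d → ℝ => x i := continuous_apply i
        fun_prop
      · intro x hx
        exact hPR (hcnsPR _ _ hz (hsh x hx))
    have hzt : ∀ t0 ∈ Finset.Icc (a 0) (b 0), ((t0 : ℂ) / N).re ∈ Set.Icc (lo N (a 0)) (hi N (b 0)) ∧
        |((t0 : ℂ) / N).im| ≤ τ := by
      intro t0 ht0
      have h2 := lat_mem hN ht0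
      exact ⟨h2.1, by rw [h2.2, abs_zero]; exact hτ0.le⟩
    have hintt : ∀ t0 ∈ Finset.Icc (a 0) (b 0), Integrable (fun x' : Fin d → ℝ =>
        f (cns ((t0 : ℂ) / N) (fun i => x' i + η' i * Complex.I))) (volume.restrict Bx) := by
      intro t0 ht0
      exact (hcontx _ (hzt t0 ht0)).integrableOn_compact hBxc
    -- the error in the first coordinate
    obtain ⟨Kx, hKx⟩ : ∃ Kx : (Fin d → ℝ) → ℂ, Kx = fun x' =>
      ∑ t0 ∈ Finset.Icc (a 0) (b 0), f (cns ((t0 : ℂ) / N) (fun i => x' i + η' i * Complex.I)) -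
        N * ∫ x0 in I0, f (cns (x0 + η 0 * Complex.I) (fun i => x' i + η' i * Complex.I)) := ⟨_, rfl⟩
    have hKint : ∫ x' in Bx, Kx x' =
        ∑ t0 ∈ Finset.Icc (a 0) (b 0), (∫ x' in Bx, f (cns ((t0 : ℂ) / N) (fun i => x' i + η' i * Complex.I))) -
        N * ∫ x0 in I0, ∫ x' in Bx, f (cns (x0 + η 0 * Complex.I) (fun i => x' i + η' i * Complex.I)) := by
      rw [hKx, hswap, integral_sub (integrable_finset_sum _ hintt) (hinner.const_mul _),
        integral_finset_sum _ hintt, integral_const_mul]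
    have hKb : ∀ x' ∈ Bx, ‖Kx x'‖ ≤ CG * (2 * (L * N)) * E := by
      intro x' hx'
      have h2 := hG N hN (a 0) (b 0) (hab 0) (fun z => f (cns z (fun i => x' i + η' i * Complex.I)))
        {z | cns z (fun i => (x' i + η' i * Complex.I : ℂ)) ∈ U} τ (η 0) A B
        (hU.preimage (cns_cont.comp (Continuous.prodMk continuous_id continuous_const)))
        (slice_diff hLD _) hτN hτ (hη 0)
        (by
          intro x hx t ht
          apply hPR
          apply hcnsPR _ _ _ (hsh x' hx')
          constructor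
          · simpa using hx
          · simpa using abs_le.2 ht)
        (by
          intro x hx
          constructor
          · apply hA
            apply hcnsPR _ _ _ (hsh x' hx')
            constructor
            · simpa using hx
            · simp [abs_of_pos hτ0]
          · apply hA
            apply hcnsPR _ _ _ (hsh x' hx')
            constructor
            · simpa using hx
            · simp [abs_of_pos hτ0])
        (by
          intro t ht
          constructor
          · apply hB _ _ ⟨0, Or.inl (by rw [cns_zero]; simp)⟩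
            apply hcnsPR _ _ _ (hsh x' hx')
            constructor
            · simpa using hlh0
            · simpa using abs_le.2 ht
          · apply hB _ _ ⟨0, Or.inr (by rw [cns_zero]; simp)⟩
            apply hcnsPR _ _ _ (hsh x' hx')
            constructor
            · simpa using hlh0
            · simpa using abs_le.2 ht)
      have h3 : ∫ x in (lo N (a 0))..(hi N (b 0)), f (cns (x + η 0 * Complex.I) (fun i => x' i + η' i * Complex.I)) =
          ∫ x0 in I0, f (cns (x0 + η 0 * Complex.I) (fun i => x' i + η' i * Complex.I)) := by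
        rw [intervalIntegral.integral_of_le hlh0, hI0, integral_Icc_eq_integral_Ioc]
      rw [h3, ← hE] at h2
      rw [hKx]
      refine h2.trans ?_
      apply mul_le_mul_of_nonneg_right _ hE0
      apply mul_le_mul_of_nonneg_left _ hCG
      have h4 := hlen 0
      have h5 : (N : ℝ) ≤ L * N := by nlinarith
      linarith
    -- the volume
    have hvol : (N : ℝ) ^ d * volume.real Bx ≤ (L * N) ^ d := by
      have h2 : Bx = Set.Icc (fun i => lo N (a' i)) (fun i => hi N (b' i)) := by
        rw [hBx, Set.pi_univ_Icc]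
      have h3 : volume.real Bx = ∏ i, (hi N (b' i) - lo N (a' i)) := by
        rw [h2, Measure.real, Real.volume_Icc_pi_toReal]
        intro i
        have : a' i ≤ b' i := by rw [ha', hb']; exact hab i.succ
        exact lo_le_hi hN this
      have h4 : (N : ℝ) ^ d = ∏ _i : Fin d, (N : ℝ) := by simp
      have h5 : (L * N) ^ d = ∏ _i : Fin d, (L * N) := by simp
      rw [h3, h4, h5, ← Finset.prod_mul_distrib]
      apply Finset.prod_le_prod
      · intro i _
        have : a' i ≤ b' i := by rw [ha', hb']; exact hab i.succ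
        have := lo_le_hi hN this
        exact mul_nonneg hN0.le (by linarith)
      · intro i _
        rw [len_eq hN, ha', hb']
        exact hlen i.succ
    have hvol0 : 0 ≤ volume.real Bx := measureReal_nonneg
    -- the end
    have hdec : ∑ t0 ∈ Finset.Icc (a 0) (b 0), ∑ t' ∈ Fintype.piFinset (fun i => Finset.Icc (a' i) (b' i)),
          f (cns ((t0 : ℂ) / N) (fun i => (t' i : ℂ) / N)) -
        N ^ (d + 1) * ∫ x0 in I0, ∫ x' in Bx,
          f (cns (x0 + η 0 * Complex.I) (fun i => x' i + η' i * Complex.I)) =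
        ∑ t0 ∈ Finset.Icc (a 0) (b 0), (∑ t' ∈ Fintype.piFinset (fun i => Finset.Icc (a' i) (b' i)),
          f (cns ((t0 : ℂ) / N) (fun i => (t' i : ℂ) / N)) -
          N ^ d * ∫ x' in Bx, f (cns ((t0 : ℂ) / N) (fun i => x' i + η' i * Complex.I))) +
        N ^ d * ∫ x' in Bx, Kx x' := by
      rw [hKint, Finset.sum_sub_distrib, ← Finset.mul_sum, pow_succ]
      ring
    rw [hdec]
    have hfirst : ∀ t0 ∈ Finset.Icc (a 0) (b 0),
        ‖∑ t' ∈ Fintype.piFinset (fun i => Finset.Icc (a' i) (b' i)),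
          f (cns ((t0 : ℂ) / N) (fun i => (t' i : ℂ) / N)) -
          N ^ d * ∫ x' in Bx, f (cns ((t0 : ℂ) / N) (fun i => x' i + η' i * Complex.I))‖ ≤ C1 * (L * N) ^ d * E := by
      intro t0 ht0
      rw [hBx, hE]
      refine h1 N hN a' b' (fun i => by rw [ha', hb']; exact hab i.succ) (fun X => f (cns ((t0 : ℂ) / N) X))
        {X | cns ((t0 : ℂ) / N) X ∈ U} τ A B L η'
        (hU.preimage (cns_cont.comp (Continuous.prodMk continuous_const continuous_id))) (LD_cns hLD _)
        ?_ hτN hτ hη'τ hL (fun i => by rw [ha', hb']; exact hlen i.succ) ?_ ?_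
      · intro X hX
        exact hPR (hcnsPR _ _ (hzt t0 ht0) hX)
      · intro X hX
        exact hA _ (hcnsPR _ _ (hzt t0 ht0) hX)
      · intro X hX hex
        apply hB _ (hcnsPR _ _ (hzt t0 ht0) hX)
        obtain ⟨i, hi'⟩ := hex
        rw [ha', hb'] at hi'
        exact ⟨i.succ, by rw [cns_succ]; exact hi'⟩
    have hcardI : ((Finset.Icc (a 0) (b 0)).card : ℝ) ≤ L * N := by
      have h2 : ((Finset.Icc (a 0) (b 0)).card : ℝ) = (b 0 : ℝ) - a 0 + 1 := by
        rw [Int.card_Icc]
        have h3 : ((b 0 + 1 - a 0).toNat : ℤ) = b 0 + 1 - a 0 := by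
          have := hab 0
          omega
        have h4 : (((b 0 + 1 - a 0).toNat : ℤ) : ℝ) = ((b 0 + 1 - a 0 : ℤ) : ℝ) := by rw [h3]
        push_cast at h4
        linarith
      rw [h2]
      exact hlen 0
    have hLN0 : 0 ≤ L * N := by positivity
    have hpart1 : ‖∑ t0 ∈ Finset.Icc (a 0) (b 0), (∑ t' ∈ Fintype.piFinset (fun i => Finset.Icc (a' i) (b' i)),
          f (cns ((t0 : ℂ) / N) (fun i => (t' i : ℂ) / N)) -
          N ^ d * ∫ x' in Bx, f (cns ((t0 : ℂ) / N) (fun i => x' i + η' i * Complex.I)))‖ ≤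
        (L * N) * (C1 * (L * N) ^ d * E) := by
      refine (norm_sum_le_of_le _ hfirst).trans ?_
      rw [Finset.sum_const, nsmul_eq_mul]
      exact mul_le_mul_of_nonneg_right hcardI (by positivity)
    have hpart2 : ‖(N : ℂ) ^ d * ∫ x' in Bx, Kx x'‖ ≤ (L * N) ^ d * (CG * (2 * (L * N)) * E) := by
      rw [norm_mul, norm_pow, Complex.norm_natCast]
      have h2 := norm_setIntegral_le_of_norm_le_const (μ := volume) (s := Bx) hBxc.measure_lt_top hKb
      calc (N : ℝ) ^ d * ‖∫ x' in Bx, Kx x'‖ ≤ (N : ℝ) ^ d * (CG * (2 * (L * N)) * E * volume.real Bx) := by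
            gcongr
        _ = ((N : ℝ) ^ d * volume.real Bx) * (CG * (2 * (L * N)) * E) := by ring
        _ ≤ (L * N) ^ d * (CG * (2 * (L * N)) * E) := by
            apply mul_le_mul_of_nonneg_right hvol
            positivity
    refine (norm_add_le _ _).trans ((add_le_add hpart1 hpart2).trans (le_of_eq ?_))
    rw [← hE]
    ring

end Pool.Agent.Q237.HT
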