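import Pool.Agent.Q99.HT.Stm3
import Pool.Agent.Q162.KN.Rect

/-! Job HT-PZ2: sums of derivatives for functions which are not odd. -/

set_option autoImplicit false

namespace Pool.Agent.Q237.HT

open Complex MeasureTheory
open Pool.Agent.Q99.HT
open Pool.Agent.Q99.KN

/-- numbers of the core -/
lemma th_facts {ρ : ℝ} (hρ : 0 < ρ) (hρ1 : ρ ≤ 1 / 16) {N : ℕ} (hN : 16 / ρ ≤ N) :
    0 < (N : ℝ) ∧ 0 < th ρ N ∧ th ρ N ≤ ρ / 4 ∧ 2 * jN ρ N + 2 ≤ N ∧ (1 - ρ / 4) * N / 2 ≤ jN ρ N := by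
  have hN0 : (0 : ℝ) < N := lt_of_lt_of_le (by positivity) hN
  have hNρ : 16 ≤ ρ * N := by
    rw [div_le_iff₀ hρ] at hN
    linarith
  have hj1 : (1 - ρ / 4) * N / 2 ≤ jN ρ N := Nat.le_ceil _
  have hj2 : (jN ρ N : ℝ) < (1 - ρ / 4) * N / 2 + 1 := by
    refine Nat.ceil_lt_add_one ?_
    have : 0 ≤ 1 - ρ / 4 := by linarith
    positivity
  have hjj : 2 * jN ρ N + 2 ≤ N := by
    have : ((2 * jN ρ N + 2 : ℕ) : ℝ) ≤ N + 1 / 2 := by push_cast; nlinarith
    have h2 : ((2 * jN ρ N + 2 : ℕ) : ℝ) < ((N + 1 : ℕ) : ℝ) := by push_cast at this ⊢; linarith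
    have := Nat.cast_lt.1 h2
    omega
  refine ⟨hN0, ?_, ?_, hjj, hj1⟩
  · have h1 : ((2 * jN ρ N + 2 : ℕ) : ℝ) ≤ N := by exact_mod_cast hjj
    push_cast at h1
    unfold th
    rw [sub_pos, div_lt_one hN0]
    linarith
  · have h1 : 1 - ρ / 4 ≤ 2 * (jN ρ N : ℝ) / N := by
      rw [le_div_iff₀ hN0]
      linarith
    unfold th
    linarith

lemma zl_refl {N k : ℕ} (hk : k < N) : zl N (N - 1 - k) = -zl N k := by
  unfold zl
  rw [Nat.cast_sub (by omega), Nat.cast_sub (by omega)]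
  push_cast
  ring

/-- the kernel is continuous off the real axis -/
lemma kz_cont (N : ℕ) {v : ℂ} (hv : v.im ≠ 0) : ContinuousAt (kz N) v := by
  have hs : sin (Real.pi * (v - N + 1) / 2) ≠ 0 := by
    intro h
    obtain ⟨k, hk⟩ := Complex.sin_eq_zero_iff.1 h
    have h1 := congrArg Complex.im hk
    have h2 : ((Real.pi : ℂ) * (v - N + 1) / 2).im = Real.pi * v.im / 2 := by
      have : (Real.pi : ℂ) * (v - N + 1) / 2 = ((Real.pi / 2 : ℝ) : ℂ) * (v - N + 1) := by push_cast; ring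
      rw [this, Complex.im_ofReal_mul]
      simp
      ring
    have h3 : ((k : ℂ) * Real.pi).im = 0 := by
      have : ((k : ℂ) * Real.pi) = ((k * Real.pi : ℝ) : ℂ) := by push_cast; ring
      rw [this, Complex.ofReal_im]
    rw [h2, h3] at h1
    have hp := Real.pi_pos
    have : Real.pi * v.im = 0 := by linarith
    rcases mul_eq_zero.1 this with h4 | h4
    · exact hp.ne' h4
    · exact hv h4
  unfold kz
  apply ContinuousAt.div
  · exact continuousAt_const
  · have h5 : Continuous fun z : ℂ => sin (Real.pi * (z - N + 1) / 2) ^ 2 := by fun_prop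
    exact h5.continuousAt
  · exact pow_ne_zero 2 hs

lemma int_kz {ρ : ℝ} (N : ℕ) {θ y : ℝ} (hN : 0 < (N : ℝ)) (hθ : 0 ≤ θ) (hθ1 : θ ≤ ρ / 4) (hy : 0 < y)
    (hy1 : y ≤ ρ / 2) (hρ : 0 < ρ) {f : ℂ → ℂ} (hf : ContinuousOn f (Metric.ball 0 ρ)) :
    IntervalIntegrable (fun x : ℝ => f (x + y * I) * kz N (N * (x + y * I))) volume (-θ) θ := by
  apply ContinuousOn.intervalIntegrable
  intro x hx
  rw [Set.uIcc_of_le (by linarith)] at hx
  apply ContinuousAt.continuousWithinAt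
  have hb : ((x : ℂ) + y * I) ∈ Metric.ball (0 : ℂ) ρ := by
    rw [Metric.mem_ball, dist_zero_right]
    have := Complex.norm_le_abs_re_add_abs_im ((x : ℂ) + y * I)
    have h1 : |((x : ℂ) + y * I).re| ≤ θ := by
      have : ((x : ℂ) + y * I).re = x := by simp
      rw [this]
      exact abs_le.2 ⟨hx.1, hx.2⟩
    have h2 : |((x : ℂ) + y * I).im| ≤ y := by
      have : ((x : ℂ) + y * I).im = y := by simp
      rw [this, abs_of_pos hy]
    linarith
  have h3 : ContinuousAt (fun x : ℝ => (x : ℂ) + y * I) x := by fun_prop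
  have h4 : ContinuousAt f ((x : ℂ) + y * I) := hf.continuousAt (Metric.isOpen_ball.mem_nhds hb)
  have h5 : ContinuousAt (fun x : ℝ => f (x + y * I)) x :=
    ContinuousAt.comp (f := fun x : ℝ => (x : ℂ) + y * I) (g := f) h4 h3
  have h6 : ContinuousAt (fun x : ℝ => (N : ℂ) * ((x : ℂ) + y * I)) x := by fun_prop
  have h7 : ContinuousAt (kz N) ((N : ℂ) * ((x : ℂ) + y * I)) := by
    apply kz_cont
    have : ((N : ℂ) * ((x : ℂ) + y * I)).im = N * y := by
      simp
    rw [this]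
    positivity
  exact h5.mul (ContinuousAt.comp (f := fun x : ℝ => (N : ℂ) * ((x : ℂ) + y * I)) (g := kz N) h7 h6)

theorem task_PZ2 : S_PZ2 := by
  intro hPZ ρ hρ hρ1
  obtain ⟨C, hC⟩ := hPZ ρ hρ hρ1
  refine ⟨C, ?_⟩
  intro N hN f hf y B hy0 hy hB
  obtain ⟨hN0, hθ0, hθ1, hjj, hj1⟩ := th_facts hρ hρ1 hN
  have hNC : (N : ℂ) ≠ 0 := by exact_mod_cast hN0.ne'
  obtain ⟨θ, hθ⟩ : ∃ θ : ℝ, θ = th ρ N := ⟨_, rfl⟩
  obtain ⟨j, hj⟩ : ∃ j : ℕ, j = jN ρ N := ⟨_, rfl⟩
  obtain ⟨g, hg⟩ : ∃ g : ℂ → ℂ, g = fun ζ => (f ζ - f (-ζ)) / 2 := ⟨_, rfl⟩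
  rw [← hj] at hjj hj1
  rw [← hθ] at hθ0 hθ1 hB
  have hneg : ∀ v ∈ Metric.ball (0 : ℂ) ρ, -v ∈ Metric.ball (0 : ℂ) ρ := by
    intro v hv
    rw [Metric.mem_ball, dist_zero_right] at hv ⊢
    rwa [norm_neg]
  have hfn : DifferentiableOn ℂ (fun ζ => f (-ζ)) (Metric.ball 0 ρ) := by
    intro v hv
    have h1 : DifferentiableAt ℂ f (-v) := hf.differentiableAt (Metric.isOpen_ball.mem_nhds (hneg v hv))
    exact (h1.comp v differentiableAt_id.neg).differentiableWithinAt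
  have hgd : DifferentiableOn ℂ g (Metric.ball 0 ρ) := by
    rw [hg]
    exact (hf.sub hfn).div_const 2
  have hodd : ∀ ζ ∈ Metric.ball (0 : ℂ) ρ, g (-ζ) = -g ζ := by
    intro ζ _
    rw [hg]
    simp only [neg_neg]
    ring
  have hgB : ∀ t ∈ Set.Icc 0 y, ‖g (θ + t * I)‖ ≤ B ∧ ‖g (-θ + t * I)‖ ≤ B := by
    intro t ht
    have h1 := hB t ⟨by linarith [ht.1], ht.2⟩
    have h2 := hB (-t) ⟨by linarith [ht.2], by linarith [ht.1]⟩
    have e1 : -((θ : ℂ) + t * I) = -(θ : ℂ) + (-t : ℝ) * I := by push_cast; ring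
    have e2 : -(-(θ : ℂ) + t * I) = (θ : ℂ) + (-t : ℝ) * I := by push_cast; ring
    rw [hg]
    simp only
    rw [e1, e2]
    constructor
    · rw [norm_div]
      have h3 := norm_sub_le (f (θ + t * I)) (f (-(θ : ℂ) + (-t : ℝ) * I))
      have h4 := h1.1
      have h5 := h2.2
      have h6 : ‖(2 : ℂ)‖ = 2 := by simp
      rw [h6, div_le_iff₀ (by norm_num)]
      linarith
    · rw [norm_div]
      have h3 := norm_sub_le (f (-(θ : ℂ) + t * I)) (f ((θ : ℂ) + (-t : ℝ) * I))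
      have h4 := h1.2
      have h5 := h2.1
      have h6 : ‖(2 : ℂ)‖ = 2 := by simp
      rw [h6, div_le_iff₀ (by norm_num)]
      linarith
  have hkey := hC N hN g hgd hodd y B hy0 hy (by rw [← hθ]; exact hgB)
  rw [← hj] at hkey ⊢
  -- the lattice points
  have hlat : ∀ k ∈ Finset.Ico j (N - j), zl N k / N ∈ Metric.ball (0 : ℂ) ρ := by
    intro k hk
    rw [Finset.mem_Ico] at hk
    obtain ⟨hk1, hk2⟩ := hk
    have h1 : (j : ℝ) ≤ k := by exact_mod_cast hk1
    have h2 : ((k + 1 + j : ℕ) : ℝ) ≤ N := by exact_mod_cast (show k + 1 + j ≤ N by omega)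
    push_cast at h2
    have h3 : zl N k / N = (((2 * (k : ℝ) + 1 - N) / N : ℝ) : ℂ) := by
      unfold zl
      push_cast
      rfl
    rw [Metric.mem_ball, dist_zero_right, h3, Complex.norm_real, Real.norm_eq_abs, abs_lt]
    constructor
    · rw [lt_div_iff₀ hN0]
      nlinarith
    · rw [div_lt_iff₀ hN0]
      nlinarith
  have hder : ∀ k ∈ Finset.Ico j (N - j), deriv (fun z : ℂ => g (z / N)) (zl N k) =
      (deriv (fun z : ℂ => f (z / N)) (zl N k) + deriv (fun z : ℂ => f (z / N)) (zl N (N - 1 - k))) / 2 := by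
    intro k hk
    have hb := hlat k hk
    rw [Finset.mem_Ico] at hk
    have hd1 : ∀ v : ℂ, v / N ∈ Metric.ball (0 : ℂ) ρ →
        HasDerivAt (fun z : ℂ => f (z / N)) (deriv (fun z : ℂ => f (z / N)) v) v := by
      intro v hv
      have h1 : DifferentiableAt ℂ f (v / N) := hf.differentiableAt (Metric.isOpen_ball.mem_nhds hv)
      have h2 : DifferentiableAt ℂ (fun z : ℂ => z / N) v := differentiableAt_id.div_const _
      exact (DifferentiableAt.comp v h1 h2).hasDerivAt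
    have h1 := hd1 (zl N k) hb
    have hb2 : (-zl N k) / N ∈ Metric.ball (0 : ℂ) ρ := by
      rw [neg_div]
      exact hneg _ hb
    have h2 := hd1 (-zl N k) hb2
    have h3 : HasDerivAt (fun z : ℂ => f (-z / N)) (-deriv (fun z : ℂ => f (z / N)) (-zl N k)) (zl N k) := by
      have h4 := HasDerivAt.comp (zl N k) h2 (hasDerivAt_neg (zl N k))
      have h5 : deriv (fun z : ℂ => f (z / N)) (-zl N k) * -1 = -deriv (fun z : ℂ => f (z / N)) (-zl N k) := by ring
      rw [h5] at h4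
      exact h4
    have h6 := (h1.sub h3).div_const 2
    have h7 : (fun z : ℂ => g (z / N)) = fun z : ℂ => (f (z / N) - f (-z / N)) / 2 := by
      funext z
      rw [hg]
      simp only
      rw [neg_div]
    rw [h7]
    have h8 : deriv (fun z : ℂ => (f (z / N) - f (-z / N)) / 2) (zl N k) = _ := h6.deriv
    rw [h8, zl_refl (show k < N by omega), sub_neg_eq_add]
  have hrefl : ∑ k ∈ Finset.Ico j (N - j), deriv (fun z : ℂ => f (z / N)) (zl N (N - 1 - k)) =
      ∑ k ∈ Finset.Ico j (N - j), deriv (fun z : ℂ => f (z / N)) (zl N k) := by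
    apply Finset.sum_nbij' (fun k => N - 1 - k) (fun k => N - 1 - k)
    · intro k hk
      rw [Finset.mem_Ico] at hk ⊢
      omega
    · intro k hk
      rw [Finset.mem_Ico] at hk ⊢
      omega
    · intro k hk
      rw [Finset.mem_Ico] at hk
      omega
    · intro k hk
      rw [Finset.mem_Ico] at hk
      omega
    · intro k _
      rfl
  have hsum : ∑ k ∈ Finset.Ico j (N - j), deriv (fun z : ℂ => g (z / N)) (zl N k) =
      ∑ k ∈ Finset.Ico j (N - j), deriv (fun z : ℂ => f (z / N)) (zl N k) := by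
    rw [Finset.sum_congr rfl hder, ← Finset.sum_div, Finset.sum_add_distrib, hrefl]
    ring
  have hQ : QZ ρ N y g = (QZ ρ N y f + QZ ρ N y (fun ζ => -f (-ζ))) / 2 := by
    unfold QZ
    rw [← hθ]
    have i1 := int_kz (ρ := ρ) N hN0 hθ0.le hθ1 hy0 hy hρ hf.continuousOn
    have i2 := int_kz (ρ := ρ) N hN0 hθ0.le hθ1 hy0 hy hρ hfn.neg.continuousOn
    have i3 : (∫ x in (-θ)..θ, g (x + y * I) * kz N (N * (x + y * I))) =
        ((∫ x in (-θ)..θ, f (x + y * I) * kz N (N * (x + y * I))) +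
          ∫ x in (-θ)..θ, (-f (-(x + y * I))) * kz N (N * (x + y * I))) / 2 := by
      have i4 := intervalIntegral.integral_add i1 i2
      have i5 : (∫ x in (-θ)..θ, (-f (-(x + y * I))) * kz N (N * (x + y * I))) =
          ∫ x in (-θ)..θ, (-(fun ζ => f (-ζ))) (x + y * I) * kz N (N * (x + y * I)) := rfl
      rw [i5, ← i4, ← intervalIntegral.integral_div]
      refine intervalIntegral.integral_congr fun x _ => ?_
      simp only [hg, Pi.neg_apply]
      ring
    rw [i3]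
    ring
  rw [hsum, hQ] at hkey
  exact hkey

end Pool.Agent.Q237.HT
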